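import Mathlib

/-!
# Irreducible commutative integral representations are characters to number fields
-/

set_option autoImplicit false

open NumberField

namespace Pool.Agent.V8H98.CHV

lemma nsmul_zero' {U : Type} [AddCommGroup U] [Module ℚ U] {n : ℕ} (hn : 0 < n) {u : U}
    (h : n • u = 0) : u = 0 := by
  rw [← Nat.cast_smul_eq_nsmul ℚ] at h
  rcases smul_eq_zero.1 h with h1 | h1
  · exact absurd h1 (by exact_mod_cast hn.ne')
  · exact h1

theorem irred_field {B U : Type} [Group B] [AddCommGroup U] [Module ℚ U] [FiniteDimensional ℚ U]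
    [Nontrivial U] (σ : B →* Module.End ℚ U) (hcomm : ∀ a b, σ a * σ b = σ b * σ a)
    (hirr : ∀ W : Submodule ℚ U, (∀ b, ∀ w ∈ W, σ b w ∈ W) → W = ⊥ ∨ W = ⊤) :
    ∃ (K : Type) (_ : Field K) (_ : NumberField K) (ι : K →+* Module.End ℚ U) (s : B →* K),
      ∀ b, ι (s b) = σ b := by
  classical
  let S : Subalgebra ℚ (Module.End ℚ U) := Algebra.adjoin ℚ (Set.range σ)
  have hSc : ∀ x ∈ S, ∀ b, x * σ b = σ b * x := by
    intro x hx b
    induction hx using Algebra.adjoin_induction with
    | mem x hx => obtain ⟨c, rfl⟩ := hx; exact hcomm c b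
    | algebraMap r => exact Algebra.commutes r (σ b)
    | add x y _ _ hx hy => rw [add_mul, mul_add, hx, hy]
    | mul x y _ _ hx hy => rw [mul_assoc, hy, ← mul_assoc, hx, mul_assoc]
  have hSS : ∀ x ∈ S, ∀ y ∈ S, x * y = y * x := by
    intro x hx y hy
    induction hy using Algebra.adjoin_induction with
    | mem y hy => obtain ⟨c, rfl⟩ := hy; exact hSc x hx c
    | algebraMap r => exact (Algebra.commutes r x).symm
    | add y z _ _ hy hz => rw [add_mul, mul_add, hy, hz]
    | mul y z _ _ hy hz => rw [← mul_assoc, hy, mul_assoc, hz, mul_assoc]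
  have hinj : ∀ x ∈ S, x ≠ 0 → ∀ u, x u = 0 → u = 0 := by
    intro x hx hx0
    rcases hirr (LinearMap.ker x) (fun b w hw => by
      rw [LinearMap.mem_ker] at hw ⊢
      have h1 := LinearMap.congr_fun (hSc x hx b) w
      rw [Module.End.mul_apply, Module.End.mul_apply, hw, map_zero] at h1
      exact h1) with h | h
    · intro u hu
      have : u ∈ LinearMap.ker x := hu
      rw [h] at this
      exact this
    · exact absurd (LinearMap.ker_eq_top.1 h) hx0
  have hnt : Nontrivial (Module.End ℚ U) := inferInstance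
  have hfd : FiniteDimensional ℚ S := by
    have : FiniteDimensional ℚ (Subalgebra.toSubmodule S) := inferInstance
    exact this
  have hF : IsField S := by
    refine ⟨⟨0, 1, zero_ne_one⟩, ?_, ?_⟩
    · rintro ⟨x, hx⟩ ⟨y, hy⟩
      exact Subtype.ext (hSS x hx y hy)
    · intro x hx0
      have hx1 : (x : Module.End ℚ U) ≠ 0 := fun h => hx0 (Subtype.ext h)
      have h1 : Function.Injective (LinearMap.mulLeft ℚ x) := by
        rw [injective_iff_map_eq_zero]
        intro y hy
        have h2 : (x : Module.End ℚ U) * (y : Module.End ℚ U) = 0 := congrArg Subtype.val hy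
        apply Subtype.ext
        ext u
        exact hinj _ x.2 hx1 _ (LinearMap.congr_fun h2 u)
      obtain ⟨y, hy⟩ := (LinearMap.injective_iff_surjective.1 h1) 1
      exact ⟨y, hy⟩
  let ι : S →+* Module.End ℚ U := S.val.toRingHom
  have hcz : CharZero S := algebraRat.charZero S
  let F : Field S := hF.toField
  have hnf : @NumberField S F := by
    refine @NumberField.mk S F hcz ?_
    convert hfd
    exact Subsingleton.elim _ _
  exact ⟨S, F, hnf, ι,
    { toFun := fun b => ⟨σ b, Algebra.subset_adjoin ⟨b, rfl⟩⟩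
      map_one' := Subtype.ext (map_one σ)
      map_mul' := fun a b => Subtype.ext (map_mul σ a b) }, fun b => rfl⟩

theorem irred_char {B U : Type} [Group B] [AddCommGroup U] [Module ℚ U] [FiniteDimensional ℚ U]
    [Nontrivial U] (σ : B →* Module.End ℚ U) (hcomm : ∀ a b, σ a * σ b = σ b * σ a)
    (hirr : ∀ W : Submodule ℚ U, (∀ b, ∀ w ∈ W, σ b w ∈ W) → W = ⊥ ∨ W = ⊤)
    (Λ : Submodule ℤ U) (hfg : Λ.FG) (hfull : ∀ v : U, ∃ n : ℕ, 0 < n ∧ n • v ∈ Λ)
    (hst : ∀ b, ∀ v ∈ Λ, σ b v ∈ Λ) :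
    ∃ (K : Type) (_ : Field K) (_ : NumberField K) (χ : B →* (𝓞 K)ˣ), (∀ b, χ b = 1 → σ b = 1) ∧
      ∀ m : ℕ, 0 < m → ∀ b, (∀ v ∈ Λ, ∃ w ∈ Λ, σ b v = v + m • w) →
        (m : 𝓞 K) ∣ (χ b : 𝓞 K) - 1 := by
  obtain ⟨K, hK1, hK2, ι, s, hs⟩ := irred_field σ hcomm hirr
  refine ⟨K, hK1, hK2, ?_⟩
  have hΛ0 : Λ ≠ ⊥ := by
    obtain ⟨u, hu⟩ := exists_ne (0 : U)
    obtain ⟨n, hn, hnu⟩ := hfull u
    intro h
    rw [h, Submodule.mem_bot] at hnu
    exact hu (nsmul_zero' hn hnu)
  have hint : ∀ x : K, (∀ v ∈ Λ, ι x v ∈ Λ) → IsIntegral ℤ x := by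
    intro x hx
    let _ : Module K U := Module.compHom U ι
    exact isIntegral_of_smul_mem_submodule Λ hΛ0 hfg x hx
  have hint2 : ∀ b, IsIntegral ℤ (s b) := fun b => hint _ fun v hv => by
    rw [hs]; exact hst b v hv
  let χ0 : B →* 𝓞 K :=
    { toFun := fun b => ⟨s b, hint2 b⟩
      map_one' := by
        apply RingOfIntegers.ext
        exact map_one s
      map_mul' := fun a b => by
        apply RingOfIntegers.ext
        exact map_mul s a b }
  have hχ : ∀ b, ((MonoidHom.toHomUnits χ0 b : (𝓞 K)ˣ) : 𝓞 K) = χ0 b := fun b => rfl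
  refine ⟨MonoidHom.toHomUnits χ0, fun b hb => ?_, fun m hm b hb => ?_⟩
  · have h1 := congrArg (fun z : (𝓞 K)ˣ => (z : 𝓞 K)) hb
    simp only [hχ, Units.val_one] at h1
    have h2 : s b = 1 := congrArg (fun z : 𝓞 K => (z : K)) h1
    rw [← hs, h2, map_one]
  · have hm0 : (m : K) ≠ 0 := by exact_mod_cast hm.ne'
    have hy : IsIntegral ℤ ((s b - 1) / (m : K)) := by
      apply hint
      intro v hv
      obtain ⟨w, hw, hvw⟩ := hb v hv
      have h1 : (m : K) * ((s b - 1) / (m : K)) = s b - 1 := by field_simp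
      have h2 := LinearMap.congr_fun (congrArg ι h1) v
      rw [map_mul, map_sub, map_one, hs, map_natCast, LinearMap.sub_apply, hvw,
        Module.End.mul_apply, Module.End.one_apply, add_sub_cancel_left, Module.End.natCast_apply] at h2
      have h3 : ι ((s b - 1) / (m : K)) v = w := by
        have h4 : m • (ι ((s b - 1) / (m : K)) v - w) = 0 := by
          rw [smul_sub, h2, sub_self]
        exact sub_eq_zero.1 (nsmul_zero' hm h4)
      rw [h3]
      exact hw
    refine ⟨⟨_, hy⟩, ?_⟩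
    apply RingOfIntegers.ext
    rw [hχ]
    show s b - 1 = (m : K) * ((s b - 1) / (m : K))
    field_simp

end Pool.Agent.V8H98.CHV
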