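import Pool.Agent.V8H98.CHV.Neat
import Pool.Agent.V8H98.CHV.Fld

/-!
# Virtually solvable groups of integral matrices congruent to 1 modulo 3
-/

set_option autoImplicit false

open Polynomial TensorProduct

namespace Pool.Agent.V8H98.CHV

theorem int_end {V : Type} [AddCommGroup V] [Module ℚ V] (Λ : Submodule ℤ V) (hfg : Λ.FG)
    (hfull : ∀ v : V, ∃ n : ℕ, 0 < n ∧ n • v ∈ Λ) (x : Module.End ℚ V)
    (hx : ∀ v ∈ Λ, x v ∈ Λ) : IsIntegral ℤ x := by
  have hfin : Module.Finite ℤ Λ := Module.Finite.iff_fg.2 hfg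
  let xL : Module.End ℤ Λ := (x.restrictScalars ℤ).restrict hx
  have hi : IsIntegral ℤ xL := Algebra.IsIntegral.isIntegral xL
  obtain ⟨p, hp1, hp2⟩ := hi
  refine ⟨p, hp1, ?_⟩
  have hpow : ∀ (n : ℕ) (u : Λ), (((xL ^ n) u : Λ) : V) = (x ^ n) (u : V) := by
    intro n
    induction n with
    | zero => intro u; rfl
    | succ n ih =>
      intro u
      rw [pow_succ, Module.End.mul_apply, ih, pow_succ, Module.End.mul_apply]
      rfl
  have key : ∀ (q : ℤ[X]) (u : Λ), ((eval₂ (algebraMap ℤ (Module.End ℤ Λ)) xL q u : Λ) : V) =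
      eval₂ (algebraMap ℤ (Module.End ℚ V)) x q (u : V) := by
    intro q
    induction q using Polynomial.induction_on' with
    | add p q hp hq =>
      intro u
      rw [eval₂_add, eval₂_add, LinearMap.add_apply, LinearMap.add_apply, Submodule.coe_add, hp, hq]
    | monomial n a =>
      intro u
      rw [eval₂_monomial, eval₂_monomial, ← Algebra.smul_def, ← Algebra.smul_def,
        LinearMap.smul_apply, LinearMap.smul_apply, Submodule.coe_smul, hpow]
  ext v
  obtain ⟨n, hn, hnv⟩ := hfull v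
  have h1 := key p ⟨_, hnv⟩
  rw [hp2] at h1
  simp only [map_nsmul] at h1
  exact nsmul_zero' hn h1.symm

lemma eig_int {F U : Type} [Field F] [AddCommGroup U] [Module F U] (X : Module.End F U)
    (hX : IsIntegral ℤ X) {μ : F} {v : U} (hv : v ≠ 0) (h : X v = μ • v) : IsIntegral ℤ μ := by
  obtain ⟨p, hp1, hp2⟩ := hX
  refine ⟨p, hp1, ?_⟩
  have hpow : ∀ (n : ℕ), (X ^ n) v = μ ^ n • v := by
    intro n
    induction n with
    | zero => simp
    | succ n ih =>
      rw [pow_succ, Module.End.mul_apply, h, map_smul, ih, smul_smul, pow_succ']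
  have key : ∀ (q : ℤ[X]), eval₂ (algebraMap ℤ (Module.End F U)) X q v =
      (eval₂ (algebraMap ℤ F) μ q) • v := by
    intro q
    induction q using Polynomial.induction_on' with
    | add p q hp hq =>
      rw [eval₂_add, eval₂_add, LinearMap.add_apply, hp, hq, add_smul]
    | monomial n a =>
      rw [eval₂_monomial, eval₂_monomial, ← Algebra.smul_def, ← Algebra.smul_def,
        LinearMap.smul_apply, hpow, smul_assoc]
  have h1 := key p
  rw [hp2] at h1
  rcases smul_eq_zero.1 h1.symm with h2 | h2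
  · exact h2
  · exact absurd h2 hv

theorem unip_of_vsolv {B V : Type} [Group B] [AddCommGroup V] [Module ℚ V]
    [FiniteDimensional ℚ V] (ρ : B →* Module.End ℚ V) (Λ : Submodule ℤ V) (hfg : Λ.FG)
    (hfull : ∀ v : V, ∃ n : ℕ, 0 < n ∧ n • v ∈ Λ) (hst : ∀ b, ∀ v ∈ Λ, ρ b v ∈ Λ)
    (h3 : ∀ b, ∀ v ∈ Λ, ∃ w ∈ Λ, ρ b v = v + 3 • w) (D : ℕ → Subgroup B)
    (hDn : ∀ i, (D i).Normal) (hD0 : (D 0).FiniteIndex) (hDc : ∀ i, ⁅D i, D i⁆ ≤ D (i + 1)) (n : ℕ)
    (hDk : ∀ d ∈ D n, ρ d = 1) : ∀ x ∈ commutator B, IsNilpotent (ρ x - 1) := by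
  intro x hx
  let F := AlgebraicClosure ℚ
  let φ : Module.End ℚ V →ₐ[ℚ] Module.End F (F ⊗[ℚ] V) := Module.End.baseChangeHom ℚ F V
  let σ : B →* Module.End F (F ⊗[ℚ] V) := (φ : Module.End ℚ V →* Module.End F (F ⊗[ℚ] V)).comp ρ
  have hσ : ∀ b, σ b = φ (ρ b) := fun b => rfl
  have hneat : Neat σ := by
    rintro b y ⟨v, hv, hy⟩
    have hy0 := eig_ne σ hv hy
    constructor
    · let X : Module.End ℚ V := (1 / 3 : ℚ) • (ρ b - 1)
      have hX : IsIntegral ℤ X := by
        apply int_end Λ hfg hfull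
        intro u hu
        obtain ⟨w, hw, huw⟩ := h3 b u hu
        have h4 : X u = w := by
          show (1 / 3 : ℚ) • (ρ b u - u) = w
          rw [huw, add_sub_cancel_left, ← Nat.cast_smul_eq_nsmul ℚ, smul_smul]
          norm_num
        rw [h4]
        exact hw
      have hX2 : IsIntegral ℤ (φ X) := hX.map φ
      apply eig_int (φ X) hX2 hv
      have h4 : φ X = (1 / 3 : ℚ) • (σ b - 1) := by
        rw [hσ, map_smul, map_sub, map_one]
      rw [h4, LinearMap.smul_apply, LinearMap.sub_apply, hy, Module.End.one_apply,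
        ← algebraMap_smul F (1 / 3 : ℚ), smul_sub, smul_smul, ← sub_smul]
      congr 1
      rw [map_div₀, map_one, map_ofNat]
      ring
    · have hX : IsIntegral ℤ (ρ b⁻¹) := int_end Λ hfg hfull _ (hst _)
      have hX2 : IsIntegral ℤ (φ (ρ b⁻¹)) := hX.map φ
      apply eig_int _ hX2 hv
      rw [← hσ]
      have h4 : σ b⁻¹ (σ b v) = v := by
        rw [← Module.End.mul_apply, ← map_mul, inv_mul_cancel, map_one, Module.End.one_apply]
      rw [hy, map_smul] at h4
      have h5 : σ b⁻¹ v = y⁻¹ • (y • σ b⁻¹ v) := by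
        rw [smul_smul, inv_mul_cancel₀ hy0, one_smul]
      rw [h5, h4]
  have h4 := neat_unip F D hDn hD0 hDc n (Module.finrank F (F ⊗[ℚ] V)) (F ⊗[ℚ] V) σ hneat
    (fun d hd => by rw [hσ, hDk d hd, map_one]) le_rfl x hx
  have h5 : σ x - 1 = φ (ρ x - 1) := by rw [hσ, map_sub, map_one]
  rw [h5] at h4
  have hinj : Function.Injective φ := by
    rw [injective_iff_map_eq_zero]
    intro f hf
    ext v
    have h6 : (1 : F) ⊗ₜ[ℚ] (f v) = 0 := by
      have h7 := LinearMap.congr_fun hf ((1 : F) ⊗ₜ[ℚ] v)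
      exact h7
    have h7 : (TensorProduct.mk ℚ F V 1) (f v) = (TensorProduct.mk ℚ F V 1) 0 := by
      rw [map_zero]
      exact h6
    exact Module.FaithfullyFlat.tensorProduct_mk_injective V h7
  exact (IsNilpotent.map_iff hinj).1 h4

end Pool.Agent.V8H98.CHV
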