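import Pool.Agent.R569.CS.Main

/-!
# Invariant subgroups instead of characteristic subgroups

This is a version of `Pool.Agent.R569.CS.csp_all` for a normal subgroup `Γ` of finite index which is
only invariant under the group acting.
-/

set_option autoImplicit false

open Pool.Agent.R569.CS

namespace Pool.Agent.V8H98.CHV

variable {G : Type} [Group G] {A : Type} [Group A]

/-- `R` is mapped into itself by `A`. -/
def Inv (α : A →* MulAut G) (R : Subgroup G) : Prop := ∀ a, ∀ x ∈ R, α a x ∈ R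

lemma inv_act_normal {α : A →* MulAut G} {K : Subgroup G} (hK : Inv α K) : (act α K).Normal := by
  constructor
  intro a ha b x
  have h1 := ha (α b⁻¹ x)
  have h2 : α (b * a * b⁻¹) x * x⁻¹ = α b (α a (α b⁻¹ x) * (α b⁻¹ x)⁻¹) := by
    have h3 : α b (α b⁻¹ x) = x := by
      rw [← MulAut.mul_apply, ← map_mul, mul_inv_cancel, map_one, MulAut.one_apply]
    rw [map_mul (α b), map_inv (α b), h3, map_mul α, map_mul α, MulAut.mul_apply,
      MulAut.mul_apply]
  rw [h2]
  exact hK b _ h1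

lemma inv_lay_normal {α : A →* MulAut G} {R R' : Subgroup G} [R'.Normal] (hR : Inv α R)
    (hR' : Inv α R') : (lay α R R').Normal := by
  constructor
  rintro a ⟨ha, ha'⟩ b
  refine ⟨(inv_act_normal hR).conj_mem a ha b, fun x hx => ?_⟩
  have hbx : α b⁻¹ x ∈ R := hR b⁻¹ x hx
  have h1 := ha' _ hbx
  have h2 : α (b * a * b⁻¹) x * x⁻¹ = α b (α a (α b⁻¹ x) * (α b⁻¹ x)⁻¹) := by
    have h3 : α b (α b⁻¹ x) = x := by
      rw [← MulAut.mul_apply, ← map_mul, mul_inv_cancel, map_one, MulAut.one_apply]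
    rw [map_mul (α b), map_inv (α b), h3, map_mul α, map_mul α, MulAut.mul_apply,
      MulAut.mul_apply]
  rw [h2]
  exact hR' b _ h1

lemma inv_comm {α : A →* MulAut G} {R R' : Subgroup G} (hR : Inv α R) (hR' : Inv α R') :
    Inv α (⁅R, R'⁆ : Subgroup G) := by
  intro a
  have h : (⁅R, R'⁆ : Subgroup G) ≤ (⁅R, R'⁆ : Subgroup G).comap (α a).toMonoidHom := by
    rw [Subgroup.commutator_le]
    intro x hx y hy
    rw [Subgroup.mem_comap, map_commutatorElement]
    exact Subgroup.commutator_mem_commutator (hR a x hx) (hR' a y hy)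
  exact fun x hx => h hx

lemma inv_lcs {α : A →* MulAut G} {Γ : Subgroup G} (hΓ : Inv α Γ) :
    ∀ i : ℕ, Inv α (Γ.lowerCentralSeries i)
  | 0 => hΓ
  | i + 1 => by
    rw [Subgroup.lowerCentralSeries_succ]
    exact inv_comm (inv_lcs hΓ i) hΓ

theorem inv_step [Group.FG G] (ρ : A →* MulAut G) (Γ : Subgroup G) [Γ.Normal]
    [Γ.FiniteIndex] (hΓ : Inv ρ Γ) (i : ℕ) (h : ∀ V : Subgroup A, V.FiniteIndex →
      lay ρ (Γ.lowerCentralSeries i) (Γ.lowerCentralSeries (i + 1)) ≤ V →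
        ∃ K : Subgroup G, K.Characteristic ∧ K.FiniteIndex ∧ act ρ K ≤ V) :
    CSP ρ (Γ.lowerCentralSeries (i + 1)) := by
  intro V hV hVj
  obtain ⟨K1, hc1, hf1, h1⟩ := layer ρ Γ i V hVj
  have hU : (lay ρ (Γ.lowerCentralSeries i) (Γ.lowerCentralSeries (i + 1))).Normal :=
    inv_lay_normal (inv_lcs hΓ i) (inv_lcs hΓ (i + 1))
  have hA1 : (act ρ K1).FiniteIndex := act_finiteIndex ρ K1
  have hfi : ((V ⊓ act ρ K1) ⊔
      lay ρ (Γ.lowerCentralSeries i) (Γ.lowerCentralSeries (i + 1))).FiniteIndex :=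
    Subgroup.finiteIndex_of_le (H := V ⊓ act ρ K1) le_sup_left
  obtain ⟨K2, hc2, hf2, h2⟩ := h _ hfi le_sup_right
  refine ⟨K1 ⊓ K2, ?_, inferInstance, ?_⟩
  · rw [Subgroup.characteristic_iff_map_eq]
    intro φ
    rw [Subgroup.map_inf_eq _ _ _ φ.injective, Subgroup.characteristic_iff_map_eq.1 hc1,
      Subgroup.characteristic_iff_map_eq.1 hc2]
  intro a ha
  have ha1 : a ∈ act ρ K1 := act_mono inf_le_left ha
  have ha2 := h2 (act_mono inf_le_right ha)
  rw [← SetLike.mem_coe, Subgroup.mul_normal] at ha2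
  obtain ⟨ν, hν, ι, hι, rfl⟩ := ha2
  have h3 : ι ∈ act ρ K1 := by
    have := (act ρ K1).mul_mem ((act ρ K1).inv_mem hν.2) ha1
    rwa [inv_mul_cancel_left] at this
  exact V.mul_mem hν.1 (h1 ⟨hι, h3⟩)

theorem inv_all [Group.FG G] (ρ : A →* MulAut G) (Γ : Subgroup G) [Γ.Normal]
    [Γ.FiniteIndex] (hΓ : Inv ρ Γ) (h : ∀ V : Subgroup A, V.FiniteIndex → lay ρ Γ ⁅Γ, Γ⁆ ≤ V →
      ∃ K : Subgroup G, K.Characteristic ∧ K.FiniteIndex ∧ act ρ K ≤ V) (c : ℕ) :
    CSP ρ (Γ.lowerCentralSeries c) := by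
  have h1 : CSP ρ (Γ.lowerCentralSeries 1) := inv_step ρ Γ hΓ 0 h
  have hs : ∀ j, CSP ρ (Γ.lowerCentralSeries (j + 1)) := by
    intro j
    induction j with
    | zero => exact h1
    | succ j ih =>
      apply inv_step ρ Γ hΓ
      intro V hV hle
      rw [lay_succ] at hle
      exact ih V hV hle
  cases c with
  | zero =>
    intro V hV hle
    exact h1 V hV ((act_mono (Γ.lowerCentralSeries_antitone (Nat.zero_le 1))).trans hle)
  | succ j => exact hs j

/-! ### Intersections -/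

/-- `act` for the restriction to a subgroup -/
lemma act_sub (α : A →* MulAut G) (B : Subgroup A) (K : Subgroup G) :
    act (α.comp B.subtype) K = (act α K).comap B.subtype := rfl

lemma char_inf {K1 K2 : Subgroup G} (h1 : K1.Characteristic) (h2 : K2.Characteristic) :
    (K1 ⊓ K2).Characteristic := by
  rw [Subgroup.characteristic_iff_map_eq]
  intro φ
  rw [Subgroup.map_inf_eq _ _ _ φ.injective, Subgroup.characteristic_iff_map_eq.1 h1,
    Subgroup.characteristic_iff_map_eq.1 h2]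

/-- The combination: the property for `N ≤ A` and for `M ∩ N ≤ N`. -/
theorem csp_inter {α : A →* MulAut G} {N M : Subgroup A} (hN : N.Normal)
    (h1 : ∀ V : Subgroup A, V.FiniteIndex → N ≤ V →
      ∃ K : Subgroup G, K.Characteristic ∧ K.FiniteIndex ∧ act α K ≤ V)
    (h2 : ∀ V : Subgroup N, V.FiniteIndex → M.comap N.subtype ≤ V →
      ∃ K : Subgroup G, K.Characteristic ∧ K.FiniteIndex ∧ act (α.comp N.subtype) K ≤ V)
    (V : Subgroup A) (hV : V.FiniteIndex) (hle : M ⊓ N ≤ V) :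
    ∃ K : Subgroup G, K.Characteristic ∧ K.FiniteIndex ∧ act α K ≤ V := by
  obtain ⟨K2, hc2, hf2, h3⟩ := h2 (V.comap N.subtype) (fi_comap _ _) (fun a ha => hle ⟨ha, a.2⟩)
  have hA2 : (act α K2).FiniteIndex := act_finiteIndex α K2
  have hfi : ((V ⊓ act α K2) ⊔ N).FiniteIndex :=
    Subgroup.finiteIndex_of_le (H := V ⊓ act α K2) le_sup_left
  obtain ⟨K1, hc1, hf1, h4⟩ := h1 _ hfi le_sup_right
  refine ⟨K1 ⊓ K2, char_inf hc1 hc2, inferInstance, ?_⟩
  intro a ha
  have ha2 : a ∈ act α K2 := act_mono inf_le_right ha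
  have ha1 := h4 (act_mono inf_le_left ha)
  rw [← SetLike.mem_coe, Subgroup.mul_normal] at ha1
  obtain ⟨ν, hν, ι, hι, rfl⟩ := ha1
  have h5 : ι ∈ act α K2 := by
    have := (act α K2).mul_mem ((act α K2).inv_mem hν.2) ha2
    rwa [inv_mul_cancel_left] at this
  have h6 : (⟨ι, hι⟩ : N) ∈ V.comap N.subtype := h3 h5
  exact V.mul_mem hν.1 h6

end Pool.Agent.V8H98.CHV
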