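import Pool.Agent.V8H98.CHV.Lin
import Pool.Agent.V8H98.CHV.BC
import Pool.Agent.V8H98.CHV.Inv

/-!
# Groups acting on a finitely generated group with a virtually solvable action on homology
-/

set_option autoImplicit false
set_option linter.unusedSectionVars false

open TensorProduct Pool.Agent.R569.CS

namespace Pool.Agent.V8H98.CHV

section

variable {G : Type} [Group G] (Γ : Subgroup G)

/-- the class in the abelianization of `Γ` -/
def mkA (x : Γ) : Additive (Abelianization Γ) := Additive.ofMul (Abelianization.of x)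

lemma mkA_surj : Function.Surjective (mkA Γ) := fun x =>
  QuotientGroup.mk_surjective (Additive.toMul x)

lemma mkA_mul (x y : Γ) : mkA Γ (x * y) = mkA Γ x + mkA Γ y := by
  unfold mkA
  rw [map_mul]
  rfl

lemma mkA_inv (x : Γ) : mkA Γ x⁻¹ = - mkA Γ x := by
  unfold mkA
  rw [map_inv]
  rfl

lemma mkA_eq {x y : Γ} (h : mkA Γ x = mkA Γ y) : (x : G) * (y : G)⁻¹ ∈ (⁅Γ, Γ⁆ : Subgroup G) := by
  have h0 : (commutator Γ).map Γ.subtype = ⁅Γ, Γ⁆ := by
    rw [commutator_def, Subgroup.map_commutator, ← MonoidHom.range_eq_map, Subgroup.range_subtype]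
  have h1 : Abelianization.of (x * y⁻¹) = 1 := by
    rw [map_mul, map_inv, show (Abelianization.of x) = Abelianization.of y from h, mul_inv_cancel]
  rw [← h0]
  exact ⟨x * y⁻¹, (QuotientGroup.eq_one_iff _).1 h1, rfl⟩

lemma mkA_of_mem {x y : Γ} (h : (x : G) * (y : G)⁻¹ ∈ (⁅Γ, Γ⁆ : Subgroup G)) :
    mkA Γ x = mkA Γ y := by
  have h0 : (commutator Γ).map Γ.subtype = ⁅Γ, Γ⁆ := by
    rw [commutator_def, Subgroup.map_commutator, ← MonoidHom.range_eq_map, Subgroup.range_subtype]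
  rw [← h0] at h
  obtain ⟨z, hz, hzx⟩ := h
  have h1 : z = x * y⁻¹ := Subtype.ext hzx
  rw [h1] at hz
  have h2 : Abelianization.of (x * y⁻¹) = 1 := (QuotientGroup.eq_one_iff _).2 hz
  rw [map_mul, map_inv, mul_inv_eq_one] at h2
  unfold mkA
  rw [h2]

/-- Conjugation by `Γ` is trivial on the abelianization. -/
lemma mkA_conj (c z : Γ) : mkA Γ (c * z * c⁻¹) = mkA Γ z := by
  rw [mkA_mul, mkA_mul, mkA_inv]
  abel

/-- The lattice. -/
def lat : Submodule ℤ (ℚ ⊗[ℤ] Additive (Abelianization Γ)) :=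
  LinearMap.range ((TensorProduct.mk ℤ ℚ (Additive (Abelianization Γ)) 1).toAddMonoidHom).toIntLinearMap

lemma isLoc : IsLocalizedModule (nonZeroDivisors ℤ)
    (TensorProduct.mk ℤ ℚ (Additive (Abelianization Γ)) 1) :=
  (isLocalizedModule_iff_isBaseChange (nonZeroDivisors ℤ) ℚ _).2
    (TensorProduct.isBaseChange ℤ (Additive (Abelianization Γ)) ℚ)

lemma nat_of_int {M : Type} [AddCommGroup M] {a : ℤ} (ha : a ≠ 0) {x : M} :
    (a • x = 0 → ∃ n : ℕ, 0 < n ∧ n • x = 0) := by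
  intro h
  refine ⟨a.natAbs, Int.natAbs_pos.2 ha, ?_⟩
  rw [← natCast_zsmul]
  rcases Int.natAbs_eq a with h1 | h1
  · rw [← h1]; exact h
  · have : ((a.natAbs : ℕ) : ℤ) = - a := by omega
    rw [this, neg_smul, h, neg_zero]

lemma lat_full (v : ℚ ⊗[ℤ] Additive (Abelianization Γ)) : ∃ n : ℕ, 0 < n ∧ n • v ∈ lat Γ := by
  have := isLoc Γ
  obtain ⟨⟨m, s⟩, hms⟩ := IsLocalizedModule.surj (nonZeroDivisors ℤ)
    (TensorProduct.mk ℤ ℚ (Additive (Abelianization Γ)) 1) v
  have hs : (s : ℤ) ≠ 0 := nonZeroDivisors.ne_zero s.2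
  refine ⟨(s : ℤ).natAbs, Int.natAbs_pos.2 hs, ?_⟩
  have h1 : (s : ℤ) • v ∈ lat Γ := ⟨m, hms.symm⟩
  rw [← natCast_zsmul]
  rcases Int.natAbs_eq (s : ℤ) with h2 | h2
  · rw [← h2]; exact h1
  · have h3 : (((s : ℤ).natAbs : ℕ) : ℤ) = - (s : ℤ) := by omega
    rw [h3, neg_smul]
    exact (lat Γ).neg_mem h1

lemma tors_of_one {x : Additive (Abelianization Γ)} (h : (1 : ℚ) ⊗ₜ[ℤ] x = 0) :
    ∃ n : ℕ, 0 < n ∧ n • x = 0 := by
  have := isLoc Γ
  obtain ⟨c, hcx⟩ := (IsLocalizedModule.eq_zero_iff (nonZeroDivisors ℤ)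
    (TensorProduct.mk ℤ ℚ (Additive (Abelianization Γ)) 1) (m := x)).1 h
  exact nat_of_int (nonZeroDivisors.ne_zero c.2) hcx

/-! ### The congruence subgroups -/

/-- The elements of `Γ` whose class in the abelianization is an `m`-th power. -/
def PP (m : ℕ) : Subgroup G :=
  (((powMonoidHom m : Abelianization Γ →* Abelianization Γ).range).comap
    Abelianization.of).map Γ.subtype

lemma mem_PP {m : ℕ} {x : G} (h : x ∈ PP Γ m) :
    ∃ hx : x ∈ Γ, ∃ e : Additive (Abelianization Γ), mkA Γ ⟨x, hx⟩ = m • e := by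
  obtain ⟨z, ⟨e, he⟩, rfl⟩ := h
  exact ⟨z.2, Additive.ofMul e, congrArg Additive.ofMul he.symm⟩

lemma PP_of_mem {m : ℕ} {x : Γ} {e : Additive (Abelianization Γ)} (h : mkA Γ x = m • e) :
    (x : G) ∈ PP Γ m :=
  ⟨x, ⟨Additive.toMul e, congrArg Additive.toMul h.symm⟩, rfl⟩

lemma PP_le (m : ℕ) : PP Γ m ≤ Γ := by
  rintro _ ⟨z, _, rfl⟩
  exact z.2

lemma PP_mono {m m' : ℕ} (h : m ∣ m') : PP Γ m' ≤ PP Γ m := by
  obtain ⟨k, rfl⟩ := h
  intro x hx
  obtain ⟨hx, e, he⟩ := mem_PP Γ hx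
  exact PP_of_mem Γ (x := ⟨x, hx⟩) (e := k • e) (by rw [he, mul_smul])

lemma PP_fin [Group.FG G] [Γ.FiniteIndex] {m : ℕ} (hm : 0 < m) : (PP Γ m).FiniteIndex := by
  have h1 : Group.FG Γ := Subgroup.fg_of_index_ne_zero Γ
  have h2 : Group.FG (Abelianization Γ) := QuotientGroup.fg _
  set R := (powMonoidHom m : Abelianization Γ →* Abelianization Γ).range with hR
  have h3 : Group.FG (Abelianization Γ ⧸ R) := QuotientGroup.fg _
  have h4 : Finite (Abelianization Γ ⧸ R) := by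
    apply Pool.Agent.Helper111.EN.finite_of_fg_nilpotent
    intro g
    induction g using QuotientGroup.induction_on with
    | H z =>
      refine isOfFinOrder_iff_pow_eq_one.2 ⟨m, hm, ?_⟩
      rw [← QuotientGroup.mk_pow]
      exact (QuotientGroup.eq_one_iff _).2 ⟨z, rfl⟩
  have h5 : R.FiniteIndex := Subgroup.finiteIndex_of_finite_quotient
  have h6 : (R.comap (Abelianization.of : Γ →* Abelianization Γ)).FiniteIndex := fi_comap _ _
  constructor
  unfold PP
  rw [Subgroup.index_map_subtype]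
  exact mul_ne_zero h6.index_ne_zero Subgroup.FiniteIndex.index_ne_zero

end

section

variable {G : Type} [Group G] {A : Type} [Group A] (α : A →* MulAut G) (Γ : Subgroup G)
  (hΓ : Inv α Γ)

/-- The restriction of an automorphism to an invariant subgroup. -/
def resAut (a : A) : Γ →* Γ :=
  ((α a).toMonoidHom.comp Γ.subtype).codRestrict Γ (fun x => hΓ a x x.2)

/-- The action on the abelianization of `Γ`. -/
def linRep : A →* Module.End ℤ (Additive (Abelianization Γ)) where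
  toFun a := (MonoidHom.toAdditive (Abelianization.map (resAut α Γ hΓ a))).toIntLinearMap
  map_one' := by
    apply LinearMap.ext
    intro x
    obtain ⟨y, rfl⟩ := mkA_surj Γ x
    have h : resAut α Γ hΓ 1 y = y := by
      apply Subtype.ext
      show α 1 y = y
      rw [map_one]
      rfl
    show mkA Γ (resAut α Γ hΓ 1 y) = mkA Γ y
    rw [h]
  map_mul' a b := by
    apply LinearMap.ext
    intro x
    obtain ⟨y, rfl⟩ := mkA_surj Γ x
    have h : resAut α Γ hΓ (a * b) y = resAut α Γ hΓ a (resAut α Γ hΓ b y) := by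
      apply Subtype.ext
      show α (a * b) y = α a (α b y)
      rw [map_mul]
      rfl
    show mkA Γ (resAut α Γ hΓ (a * b) y) = mkA Γ (resAut α Γ hΓ a (resAut α Γ hΓ b y))
    rw [h]

lemma linRep_mkA (a : A) (x : Γ) : linRep α Γ hΓ a (mkA Γ x) = mkA Γ (resAut α Γ hΓ a x) := rfl

/-- The action on the rational homology of `Γ`. -/
noncomputable def ratRep : A →* Module.End ℚ (ℚ ⊗[ℤ] Additive (Abelianization Γ)) :=
  ((Module.End.baseChangeHom ℤ ℚ (Additive (Abelianization Γ)) :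
    Module.End ℤ (Additive (Abelianization Γ)) →ₐ[ℤ] _) :
    Module.End ℤ (Additive (Abelianization Γ)) →*
      Module.End ℚ (ℚ ⊗[ℤ] Additive (Abelianization Γ))).comp (linRep α Γ hΓ)

lemma ratRep_one (a : A) (x : Additive (Abelianization Γ)) :
    ratRep α Γ hΓ a (1 ⊗ₜ[ℤ] x) = 1 ⊗ₜ[ℤ] (linRep α Γ hΓ a x) := rfl

include hΓ in
lemma PP_inv (m : ℕ) : Inv α (PP Γ m) := by
  intro a x hx
  obtain ⟨hx, e, he⟩ := mem_PP Γ hx
  refine PP_of_mem Γ (x := resAut α Γ hΓ a ⟨x, hx⟩) (e := linRep α Γ hΓ a e) ?_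
  rw [← linRep_mkA, he, map_nsmul]

include hΓ in
lemma filt [Group.FG G] [Γ.FiniteIndex] : Filt (fun m => act α (PP Γ m)) where
  mono := fun h => act_mono (PP_mono Γ h)
  fin := fun {m} hm => by
    obtain ⟨K, hK1, hK2, hK3⟩ := charCore (PP Γ m) (PP_fin Γ hm)
    have := act_finiteIndex α K
    exact Subgroup.finiteIndex_of_le (act_mono hK3)
  nor := fun m => inv_act_normal (PP_inv α Γ hΓ m)

lemma act_mk {m : ℕ} {a : A} (ha : a ∈ act α (PP Γ m)) (x : Γ) :
    ∃ e : Additive (Abelianization Γ), linRep α Γ hΓ a (mkA Γ x) = mkA Γ x + m • e := by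
  obtain ⟨hx, e, he⟩ := mem_PP Γ (ha x)
  refine ⟨e, ?_⟩
  rw [linRep_mkA, ← he, ← mkA_mul]
  have h1 : mkA Γ (resAut α Γ hΓ a x) =
      mkA Γ (⟨α a x * (x : G)⁻¹, hx⟩ * x) := by
    congr 1
    apply Subtype.ext
    show α a x = α a x * (x : G)⁻¹ * x
    group
  rw [h1, mkA_mul, mkA_mul, add_comm]

lemma intRep [Group.FG G] [Γ.FiniteIndex] (A0 : Subgroup A) :
    IntRep (fun m => act α (PP Γ m)) ((ratRep α Γ hΓ).comp A0.subtype) (lat Γ) where
  fg := by
    have h1 : Group.FG Γ := Subgroup.fg_of_index_ne_zero Γ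
    have h2 : Group.FG (Abelianization Γ) := QuotientGroup.fg _
    have h3 : AddGroup.FG (Additive (Abelianization Γ)) := AddGroup.fg_iff_mul_fg.2 h2
    have h4 : Module.Finite ℤ (Additive (Abelianization Γ)) := Module.Finite.iff_addGroup_fg.2 h3
    unfold lat
    rw [LinearMap.range_eq_map]
    exact h4.fg_top.map _
  full := lat_full Γ
  stab := by
    rintro a _ ⟨x, rfl⟩
    exact ⟨linRep α Γ hΓ a x, rfl⟩
  cong := by
    rintro m hm a ha _ ⟨x, rfl⟩
    obtain ⟨y, rfl⟩ := mkA_surj Γ x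
    obtain ⟨e, he⟩ := act_mk α Γ hΓ ha y
    refine ⟨(1 : ℚ) ⊗ₜ[ℤ] e, ⟨e, rfl⟩, ?_⟩
    show ratRep α Γ hΓ a ((1 : ℚ) ⊗ₜ[ℤ] mkA Γ y) = (1 : ℚ) ⊗ₜ[ℤ] mkA Γ y + m • ((1 : ℚ) ⊗ₜ[ℤ] e)
    rw [ratRep_one, he, TensorProduct.tmul_add, TensorProduct.tmul_smul]

/-- The base of the induction: torsion in the abelianization. -/
lemma base [Group.FG G] [Γ.Normal] [Γ.FiniteIndex]
    (A0 : Subgroup A) {N : Subgroup A} (hN : lay α Γ ⁅Γ, Γ⁆ ≤ N) :
    Opn (fun m => act α (PP Γ m)) N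
      (((ratRep α Γ hΓ).comp A0.subtype).ker.map A0.subtype) := by
  have h1 : Group.FG Γ := Subgroup.fg_of_index_ne_zero Γ
  have h2 : Group.FG (Abelianization Γ) := QuotientGroup.fg _
  have h3 : AddGroup.FG (Additive (Abelianization Γ)) := AddGroup.fg_iff_mul_fg.2 h2
  have h4 : Module.Finite ℤ (Additive (Abelianization Γ)) := Module.Finite.iff_addGroup_fg.2 h3
  obtain ⟨c, hc0, hc⟩ := tors_exp_mod (Additive (Abelianization Γ))
  refine ⟨c, hc0, ?_⟩
  rintro _ ⟨⟨a, ha, rfl⟩, hact⟩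
  apply hN
  refine ⟨fun x => PP_le Γ c (hact x), fun x hx => ?_⟩
  obtain ⟨e, he⟩ := act_mk α Γ hΓ hact ⟨x, hx⟩
  have ha1 : ratRep α Γ hΓ a.1 = 1 := ha
  have h5 : (1 : ℚ) ⊗ₜ[ℤ] (c • e) = 0 := by
    have h6 := LinearMap.congr_fun ha1 ((1 : ℚ) ⊗ₜ[ℤ] mkA Γ ⟨x, hx⟩)
    rw [ratRep_one] at h6
    have h7 : linRep α Γ hΓ a.1 (mkA Γ ⟨x, hx⟩) = mkA Γ ⟨x, hx⟩ + c • e := he
    rw [h7, TensorProduct.tmul_add] at h6
    have h8 : (1 : ℚ) ⊗ₜ[ℤ] mkA Γ ⟨x, hx⟩ + (1 : ℚ) ⊗ₜ[ℤ] (c • e) =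
      (1 : ℚ) ⊗ₜ[ℤ] mkA Γ ⟨x, hx⟩ := h6
    exact add_eq_left.1 h8
  obtain ⟨n, hn, hne⟩ := tors_of_one Γ h5
  have h6 : c • e = 0 := hc e (n * c) (Nat.mul_pos hn hc0) (by rw [mul_smul, hne])
  rw [h6, add_zero, linRep_mkA] at he
  exact mkA_eq Γ he

/-- The congruence property when the action on homology is virtually solvable. -/
theorem lin_csp [Group.FG G] [Γ.Normal] [Γ.FiniteIndex] (X : ℕ → Subgroup A)
    (hXn : ∀ i, (X i).Normal) (hX0 : (X 0).FiniteIndex)
    (hXc : ∀ i, ⁅X i, X i⁆ ≤ X (i + 1)) (n : ℕ) (hXt : ∀ a ∈ X n, linRep α Γ hΓ a = 1)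
    (N : Subgroup A) (hNf : N.FiniteIndex) (hNn : N.Normal) (hN : lay α Γ ⁅Γ, Γ⁆ ≤ N) :
    ∃ K : Subgroup G, K.Characteristic ∧ K.FiniteIndex ∧ act α K ≤ N := by
  have h1 : Group.FG Γ := Subgroup.fg_of_index_ne_zero Γ
  have h2 : Group.FG (Abelianization Γ) := QuotientGroup.fg _
  have h3 : AddGroup.FG (Additive (Abelianization Γ)) := AddGroup.fg_iff_mul_fg.2 h2
  have h4 : Module.Finite ℤ (Additive (Abelianization Γ)) := Module.Finite.iff_addGroup_fg.2 h3
  have h5 : FiniteDimensional ℚ (ℚ ⊗[ℤ] Additive (Abelianization Γ)) := inferInstance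
  let A0 : Subgroup A := act α (PP Γ 3)
  have hrep := intRep α Γ hΓ A0
  have hu := unip_of_vsolv ((ratRep α Γ hΓ).comp A0.subtype) (lat Γ) hrep.fg hrep.full
    hrep.stab (fun b v hv => hrep.cong 3 (by norm_num) b b.2 v hv) (fun i => (X i).comap A0.subtype)
    (fun i => by
      have := hXn i
      infer_instance)
    (fi_comap _ _) (fun i => by
      rw [Subgroup.commutator_le]
      intro a ha b hb
      exact hXc i (Subgroup.commutator_mem_commutator ha hb)) n
    (fun d hd => by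
      have h6 : linRep α Γ hΓ d.1 = 1 := hXt _ hd
      show (Module.End.baseChangeHom ℤ ℚ (Additive (Abelianization Γ))) (linRep α Γ hΓ d.1) = 1
      rw [h6, map_one])
  obtain ⟨m, hm, hmN⟩ := lin (filt α Γ hΓ) hNf hNn _ (ℚ ⊗[ℤ] Additive (Abelianization Γ)) A0
    ((ratRep α Γ hΓ).comp A0.subtype) (lat Γ) le_rfl hrep hu (base α Γ hΓ A0 hN)
  obtain ⟨K, hK1, hK2, hK3⟩ := charCore (PP Γ (3 * m)) (PP_fin Γ (by omega))
  refine ⟨K, hK1, hK2, ?_⟩
  intro a ha
  exact hmN ⟨act_mono (hK3.trans (PP_mono Γ (Dvd.intro m rfl))) ha,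
    act_mono (hK3.trans (PP_mono Γ (Dvd.intro_left 3 rfl))) ha⟩

end

variable {G : Type} [Group G] {A : Type} [Group A]

/-- the derived series of a subgroup -/
def dser (E : Subgroup A) : ℕ → Subgroup A
  | 0 => E
  | i + 1 => ⁅dser E i, dser E i⁆

lemma dser_normal (E : Subgroup A) (hE : E.Normal) : ∀ i, (dser E i).Normal
  | 0 => hE
  | i + 1 => by
    have := dser_normal E hE i
    exact Subgroup.commutator_normal _ _

lemma dser_le (E : Subgroup A) : ∀ i, dser E i ≤ E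
  | 0 => le_rfl
  | i + 1 => by
    refine le_trans (Subgroup.commutator_le.2 fun a ha b hb => ?_) (dser_le E i)
    rw [commutatorElement_def]
    exact (dser E i).mul_mem ((dser E i).mul_mem ((dser E i).mul_mem ha hb)
      ((dser E i).inv_mem ha)) ((dser E i).inv_mem hb)

lemma dser_map_le {A' : Type} [Group A'] (f : A' →* A) {E : Subgroup A} {E' : Subgroup A'}
    (h : E'.map f ≤ E) : ∀ i, (dser E' i).map f ≤ dser E i
  | 0 => h
  | i + 1 => by
    show (⁅dser E' i, dser E' i⁆ : Subgroup A').map f ≤ ⁅dser E i, dser E i⁆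
    rw [Subgroup.map_commutator]
    exact Subgroup.commutator_mono (dser_map_le f h i) (dser_map_le f h i)

lemma dser_eq (E : Subgroup A) : ∀ i, dser E i = (derivedSeries E i).map E.subtype
  | 0 => by
    rw [derivedSeries_zero, ← MonoidHom.range_eq_map, Subgroup.range_subtype]
    rfl
  | i + 1 => by
    rw [derivedSeries_succ, Subgroup.map_commutator, ← dser_eq E i]
    rfl

/-- An automorphism trivial on `G / Γ` commutes on the abelianization of `Γ` with the inner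
automorphisms. -/
lemma act_comm_conj (α : A →* MulAut G) (Γ : Subgroup G) (hΓ : Inv α Γ)
    (hΓc : Inv (MulAut.conj : G →* MulAut G) Γ) {a : A}
    (ha : a ∈ act α Γ) (h : G) :
    linRep α Γ hΓ a * linRep MulAut.conj Γ hΓc h = linRep MulAut.conj Γ hΓc h *
      linRep α Γ hΓ a := by
  apply LinearMap.ext
  intro x
  obtain ⟨y, rfl⟩ := mkA_surj Γ x
  rw [Module.End.mul_apply, Module.End.mul_apply, linRep_mkA, linRep_mkA, linRep_mkA, linRep_mkA]
  rw [← mkA_conj Γ ⟨α a h * h⁻¹, ha h⟩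
    (resAut MulAut.conj Γ hΓc h (resAut α Γ hΓ a y))]
  congr 1
  apply Subtype.ext
  show α a (h * (y : G) * h⁻¹) = α a h * h⁻¹ * (h * α a y * h⁻¹) * (α a h * h⁻¹)⁻¹
  rw [map_mul (α a), map_mul (α a), map_inv (α a)]
  group

/-- the hypothesis: some derived subgroup of a subgroup of finite index acts on the abelianization of
`Γ` by conjugations -/
def VS (α : A →* MulAut G) (Γ : Subgroup G) : Prop :=
  ∃ E : Subgroup A, E.FiniteIndex ∧ ∃ n : ℕ, ∀ d ∈ dser E n, ∃ g : G, ∀ x ∈ Γ,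
    α d x * (g * x * g⁻¹)⁻¹ ∈ (⁅Γ, Γ⁆ : Subgroup G)

lemma VS.sub {α : A →* MulAut G} {Γ : Subgroup G} (h : VS α Γ) (B : Subgroup A) :
    VS (α.comp B.subtype) Γ := by
  obtain ⟨E, hE, n, hn⟩ := h
  refine ⟨E.comap B.subtype, fi_comap _ _, n, fun d hd => ?_⟩
  exact hn _ (dser_map_le B.subtype (E := E) (Subgroup.map_comap_le _ _) n ⟨d, hd, rfl⟩)

/-- Let `A` act on the finitely generated group `G` and preserve `Γ`, and let some derived subgroup
of a subgroup of finite index of `A` act on `Γ / [Γ, Γ]` by inner automorphisms of `G`. Then the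
subgroups of finite index of `A` which contain all elements acting trivially on `G / Γ` and on
`Γ / [Γ, Γ]` are congruence subgroups. -/
theorem csp_vs [Group.FG G] (α : A →* MulAut G) (Γ : Subgroup G) [hnor : Γ.Normal]
    [Γ.FiniteIndex] (hΓ : Inv α Γ) (hVS : VS α Γ)
    (V : Subgroup A) (hV : V.FiniteIndex) (hle : lay α Γ ⁅Γ, Γ⁆ ≤ V) :
    ∃ K : Subgroup G, K.Characteristic ∧ K.FiniteIndex ∧ act α K ≤ V := by
  obtain ⟨E, hE, n, hn⟩ := hVS
  have hΓc : Inv (MulAut.conj : G →* MulAut G) Γ := fun g x hx => hnor.conj_mem x hx g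
  have hact : (act α Γ).FiniteIndex := by
    obtain ⟨K, hK1, hK2, hK3⟩ := charCore Γ inferInstance
    have := act_finiteIndex α K
    exact Subgroup.finiteIndex_of_le (act_mono hK3)
  set E' : Subgroup A := (E ⊓ act α Γ).normalCore with hE'
  have hE'n : E'.Normal := Subgroup.normalCore_normal _
  have hE'f : E'.FiniteIndex := inferInstance
  have hE'1 : E' ≤ E := (Subgroup.normalCore_le _).trans inf_le_left
  have hE'2 : E' ≤ act α Γ := (Subgroup.normalCore_le _).trans inf_le_right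
  have hlin : ∀ a ∈ dser E' n, ∃ g : G, linRep α Γ hΓ a = linRep MulAut.conj Γ hΓc g := by
    intro a ha
    have hd : a ∈ dser E n := dser_map_le (MonoidHom.id A) (E := E) (E' := E')
      (by rw [Subgroup.map_id]; exact hE'1) n ⟨a, ha, rfl⟩
    obtain ⟨g, hg⟩ := hn a hd
    refine ⟨g, ?_⟩
    apply LinearMap.ext
    intro x
    obtain ⟨y, rfl⟩ := mkA_surj Γ x
    rw [linRep_mkA, linRep_mkA]
    exact mkA_of_mem Γ (hg y y.2)
  have hXt : ∀ a ∈ dser E' (n + 1), linRep α Γ hΓ a = 1 := by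
    have h1 : dser E' (n + 1) ≤ (linRep α Γ hΓ).ker := by
      show ⁅dser E' n, dser E' n⁆ ≤ _
      rw [Subgroup.commutator_le]
      intro a ha b hb
      have haΓ := hE'2 (dser_le E' n ha)
      obtain ⟨h, hh⟩ := hlin b hb
      have h3 : linRep α Γ hΓ a * linRep α Γ hΓ b = linRep α Γ hΓ b * linRep α Γ hΓ a := by
        rw [hh]
        exact act_comm_conj α Γ hΓ hΓc haΓ h
      rw [MonoidHom.mem_ker, commutatorElement_def]
      set τ := linRep α Γ hΓ with hτ
      have h4 : τ (a * b * a⁻¹ * b⁻¹) * τ (b * a) = τ (b * a) := by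
        rw [← map_mul]
        have h5 : a * b * a⁻¹ * b⁻¹ * (b * a) = a * b := by group
        rw [h5, map_mul, map_mul, h3]
      have h5 : τ (b * a) * τ (b * a)⁻¹ = 1 := by
        rw [← map_mul, mul_inv_cancel, map_one]
      calc τ (a * b * a⁻¹ * b⁻¹) = τ (a * b * a⁻¹ * b⁻¹) * (τ (b * a) * τ (b * a)⁻¹) := by
            rw [h5, mul_one]
        _ = 1 := by rw [← mul_assoc, h4, h5]
    exact fun a ha => h1 ha
  have hlay : (lay α Γ ⁅Γ, Γ⁆).Normal := inv_lay_normal hΓ (inv_comm hΓ hΓ)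
  obtain ⟨K, hK1, hK2, hK3⟩ := lin_csp α Γ hΓ (dser E') (dser_normal E' hE'n) hE'f
    (fun i => le_rfl) (n + 1) hXt V.normalCore inferInstance (Subgroup.normalCore_normal V)
    (Subgroup.normal_le_normalCore.2 hle)
  exact ⟨K, hK1, hK2, hK3.trans (Subgroup.normalCore_le V)⟩

/-- Several invariant subgroups. -/
theorem csp_family [Group.FG G] {I : Type} (s : Finset I) (Γ : I → Subgroup G)
    (hn : ∀ i ∈ s, (Γ i).Normal) (hf : ∀ i ∈ s, (Γ i).FiniteIndex) (c : I → ℕ) :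
    ∀ (A : Type) [Group A] (α : A →* MulAut G), (∀ i ∈ s, Inv α (Γ i)) → (∀ i ∈ s, VS α (Γ i)) →
      ∀ V : Subgroup A, V.FiniteIndex → (⨅ i ∈ s, act α ((Γ i).lowerCentralSeries (c i))) ≤ V →
        ∃ K : Subgroup G, K.Characteristic ∧ K.FiniteIndex ∧ act α K ≤ V := by
  classical
  induction s using Finset.induction_on with
  | empty =>
    intro A _ α _ _ V hV hle
    refine ⟨⊤, inferInstance, inferInstance, le_trans le_top ?_⟩
    simpa using hle
  | insert i s hi ih =>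
    intro A _ α hinv hVS V hV hle
    have hin : i ∈ insert i s := Finset.mem_insert_self i s
    have hni := hn i hin
    have hfi := hf i hin
    set N : Subgroup A := ⨅ i ∈ s, act α ((Γ i).lowerCentralSeries (c i)) with hN
    have hNn : N.Normal := by
      refine Subgroup.normal_iInf_normal fun j => Subgroup.normal_iInf_normal fun hj => ?_
      exact inv_act_normal (inv_lcs (hinv j (Finset.mem_insert_of_mem hj)) _)
    refine csp_inter (α := α) (N := N) (M := act α ((Γ i).lowerCentralSeries (c i))) hNn ?_ ?_ V hV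
      ?_
    · intro V' hV' hle'
      exact ih (fun j hj => hn j (Finset.mem_insert_of_mem hj))
        (fun j hj => hf j (Finset.mem_insert_of_mem hj)) A α
        (fun j hj => hinv j (Finset.mem_insert_of_mem hj))
        (fun j hj => hVS j (Finset.mem_insert_of_mem hj)) V' hV' hle'
    · intro V' hV' hle'
      have hinvN : Inv (α.comp N.subtype) (Γ i) := fun a x hx => hinv i hin a.1 x hx
      exact inv_all (α.comp N.subtype) (Γ i) hinvN
        (fun V'' hV'' h => csp_vs (α.comp N.subtype) (Γ i) hinvN ((hVS i hin).sub N) V'' hV'' h)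
        (c i) V' hV' hle'
    · rw [Finset.iInf_insert] at hle
      exact hle

/-- Several normal subgroups of finite index, not necessarily invariant. -/
theorem csp_main [Group.FG G] {I : Type} [Finite I] (Γ : I → Subgroup G)
    (hn : ∀ i, (Γ i).Normal) (hf : ∀ i, (Γ i).FiniteIndex) (c : I → ℕ)
    (α : A →* MulAut G) (hVS : ∀ i, VS α (Γ i))
    (V : Subgroup A) (hV : V.FiniteIndex)
    (hle : act α (⨅ i, (Γ i).lowerCentralSeries (c i)) ≤ V) :
    ∃ K : Subgroup G, K.Characteristic ∧ K.FiniteIndex ∧ act α K ≤ V := by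
  classical
  have := Fintype.ofFinite I
  obtain ⟨K0, h01, h02, h03⟩ := charCore (⨅ i, Γ i) (Subgroup.finiteIndex_iInf hf)
  set A0 : Subgroup A := act α K0 with hA0
  have hinv : ∀ i, Inv (α.comp A0.subtype) (Γ i) := by
    intro i a x hx
    have h1 : α a.1 x * x⁻¹ ∈ Γ i := (h03.trans (iInf_le _ i)) (a.2 x)
    have h2 := (Γ i).mul_mem h1 hx
    rwa [inv_mul_cancel_right] at h2
  obtain ⟨K1, h11, h12, h13⟩ := csp_family Finset.univ Γ (fun i _ => hn i) (fun i _ => hf i) c A0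
    (α.comp A0.subtype) (fun i _ => hinv i) (fun i _ => (hVS i).sub A0) (V.comap A0.subtype)
    (fi_comap _ _) (by
      intro a ha
      apply hle
      intro x
      rw [Subgroup.mem_iInf]
      intro i
      simp only [Finset.mem_univ, iInf_pos, Subgroup.mem_iInf] at ha
      exact ha i x)
  refine ⟨K0 ⊓ K1, char_inf h01 h11, inferInstance, ?_⟩
  intro a ha
  exact h13 (show (⟨a, act_mono inf_le_left ha⟩ : A0) ∈ act (α.comp A0.subtype) K1 from
    act_mono (ρ := α) inf_le_right ha)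

end Pool.Agent.V8H98.CHV
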