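import Pool.Agent.V8H98.CHV.Loc

/-!
# Chevalley's theorem: subgroups of finite index of unit groups are congruence subgroups
-/

set_option autoImplicit false

open NumberField

namespace Pool.Agent.V8H98.CHV

section

variable (K : Type) [Field K] [NumberField K]

lemma exists_not_dvd {a : 𝓞 K} (ha : a ≠ 0) : ∃ n : ℕ, 0 < n ∧ ¬ (n : 𝓞 K) ∣ a := by
  set A := Ideal.absNorm (Ideal.span {a}) with hA
  have hA0 : A ≠ 0 := by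
    rw [hA, Ne, Ideal.absNorm_eq_zero_iff, Ideal.span_singleton_eq_bot]
    exact ha
  refine ⟨A + 1, Nat.succ_pos _, fun h => ?_⟩
  have h1 : Ideal.span {a} ≤ Ideal.span {((A + 1 : ℕ) : 𝓞 K)} := by
    rw [Ideal.span_singleton_le_span_singleton]
    exact h
  have h2 := Ideal.absNorm_dvd_absNorm_of_le h1
  rw [Ideal.absNorm_span_natCast] at h2
  have h3 := Nat.le_of_dvd (Nat.pos_of_ne_zero hA0) h2
  have h4 : A + 1 ≤ (A + 1) ^ Module.finrank ℤ (𝓞 K) := by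
    apply Nat.le_self_pow
    rw [RingOfIntegers.rank]
    exact Module.finrank_pos.ne'
  omega

/-- A modulus which separates the roots of unity. -/
lemma exists_m0 : ∃ m0 : ℕ, 0 < m0 ∧ ∀ ε : (𝓞 K)ˣ, ε ^ Units.torsionOrder K = 1 →
    (m0 : 𝓞 K) ∣ (ε : 𝓞 K) - 1 → ε = 1 := by
  classical
  have h1 : ∀ ε : Units.torsion K, ∃ n : ℕ, 0 < n ∧
      ((n : 𝓞 K) ∣ ((ε : (𝓞 K)ˣ) : 𝓞 K) - 1 → (ε : (𝓞 K)ˣ) = 1) := by
    intro ε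
    by_cases h : (ε : (𝓞 K)ˣ) = 1
    · exact ⟨1, one_pos, fun _ => h⟩
    · have h2 : ((ε : (𝓞 K)ˣ) : 𝓞 K) - 1 ≠ 0 := by
        rw [sub_ne_zero]
        exact fun h3 => h (Units.ext h3)
      obtain ⟨n, hn, hnd⟩ := exists_not_dvd K h2
      exact ⟨n, hn, fun h3 => absurd h3 hnd⟩
  have := Fintype.ofFinite (Units.torsion K)
  choose f hf0 hf using h1
  refine ⟨∏ ε, f ε, Finset.prod_pos fun ε _ => hf0 ε, fun ε hε hd => ?_⟩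
  have hmem : ε ∈ Units.torsion K := by
    rw [Units.torsion, CommGroup.mem_torsion, isOfFinOrder_iff_pow_eq_one]
    exact ⟨_, Units.torsionOrder_pos K, hε⟩
  refine hf ⟨ε, hmem⟩ (dvd_trans ?_ hd)
  exact_mod_cast Nat.cast_dvd_cast (Finset.dvd_prod_of_mem f (Finset.mem_univ (⟨ε, hmem⟩ : Units.torsion K)))

lemma exists_h {m : ℕ} (hm : 0 < m) : ∃ h : ℕ, 0 < h ∧ ∀ y : (𝓞 K)ˣ,
    (m : 𝓞 K) ∣ ((y ^ h : (𝓞 K)ˣ) : 𝓞 K) - 1 := by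
  have hm0 : (m : 𝓞 K) ≠ 0 := by exact_mod_cast hm.ne'
  have hI : Ideal.span {(m : 𝓞 K)} ≠ ⊥ := by
    rw [Ne, Ideal.span_singleton_eq_bot]
    exact hm0
  have hfin : Finite (𝓞 K ⧸ Ideal.span {(m : 𝓞 K)}) :=
    Ring.HasFiniteQuotients.finiteQuotient hI
  refine ⟨Nat.card (𝓞 K ⧸ Ideal.span {(m : 𝓞 K)})ˣ, Nat.card_pos, fun y => ?_⟩
  rw [← Ideal.mem_span_singleton, ← Ideal.Quotient.eq_zero_iff_mem, map_sub, map_one]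
  have h1 : (Units.map (Ideal.Quotient.mk (Ideal.span {(m : 𝓞 K)})).toMonoidHom y) ^
      Nat.card (𝓞 K ⧸ Ideal.span {(m : 𝓞 K)})ˣ = 1 := pow_card_eq_one'
  have h2 := congrArg (fun z : (𝓞 K ⧸ Ideal.span {(m : 𝓞 K)})ˣ =>
    (z : 𝓞 K ⧸ Ideal.span {(m : 𝓞 K)})) h1
  simp only [Units.val_pow_eq_pow_val, Units.coe_map, Units.val_one] at h2
  rw [Units.val_pow_eq_pow_val, map_pow, sub_eq_zero]
  exact h2

/-- For each class modulo `N`-th powers a modulus. -/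
lemma exists_mod {N : ℕ} (hN : 0 < N) (u0 : (𝓞 K)ˣ) : ∃ n : ℕ, 0 < n ∧ ∀ e : (𝓞 K)ˣ,
    (n : 𝓞 K) ∣ ((u0 * e ^ N : (𝓞 K)ˣ) : 𝓞 K) - 1 →
      ∃ x : (𝓞 K)ˣ, (u0 * e ^ N) ^ Units.torsionOrder K = x ^ N := by
  by_cases hL : Loc K N (u0 : 𝓞 K)
  · obtain ⟨x, hx⟩ := pow_of_loc' hN hL
    refine ⟨1, one_pos, fun e _ => ⟨x * e ^ Units.torsionOrder K, ?_⟩⟩
    rw [mul_pow, mul_pow, hx, ← pow_mul, ← pow_mul, mul_comm N]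
  · unfold Loc at hL
    push Not at hL
    obtain ⟨p, hp, hpN, ψ, hψ, hc⟩ := hL
    refine ⟨p, hp.out.pos, fun e he => ?_⟩
    exfalso
    obtain ⟨t, ht⟩ := he
    have h1 : ψ ((u0 * e ^ N : (𝓞 K)ˣ) : 𝓞 K) = 1 := by
      have h2 := congrArg ψ ht
      rw [map_sub, map_one, map_mul, map_natCast, CharP.cast_eq_zero, zero_mul] at h2
      exact sub_eq_zero.1 h2
    refine hc (ψ ((e⁻¹ : (𝓞 K)ˣ) : 𝓞 K)) (hψ _) ?_
    rw [Units.val_mul, map_mul, Units.val_pow_eq_pow_val, map_pow] at h1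
    have h3 : ψ ((e⁻¹ : (𝓞 K)ˣ) : 𝓞 K) * ψ (e : 𝓞 K) = 1 := by
      rw [← map_mul, Units.inv_mul, map_one]
    calc ψ (u0 : 𝓞 K) = ψ (u0 : 𝓞 K) * (ψ ((e⁻¹ : (𝓞 K)ˣ) : 𝓞 K) * ψ (e : 𝓞 K)) ^ N := by
          rw [h3, one_pow, mul_one]
      _ = (ψ (u0 : 𝓞 K) * ψ (e : 𝓞 K) ^ N) * ψ ((e⁻¹ : (𝓞 K)ˣ) : 𝓞 K) ^ N := by
          rw [mul_pow]; ring
      _ = _ := by rw [h1, one_mul]

/-- **Chevalley's theorem** on units: for every `k` there is an `m` such that the units which are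
`1` modulo `m` are `k`-th powers of units. -/
theorem chevalley {k : ℕ} (hk : 0 < k) : ∃ m : ℕ, 0 < m ∧ ∀ u : (𝓞 K)ˣ,
    (m : 𝓞 K) ∣ (u : 𝓞 K) - 1 → ∃ v : (𝓞 K)ˣ, u = v ^ k := by
  classical
  obtain ⟨m0, hm0, hm0'⟩ := exists_m0 K
  obtain ⟨h, hh, hh'⟩ := exists_h K hm0
  set W := Units.torsionOrder K with hW
  have hWp : 0 < W := Units.torsionOrder_pos K
  set N := W * (k * h) with hN
  have hNp : 0 < N := by positivity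
  let R : Subgroup (𝓞 K)ˣ := (powMonoidHom N : (𝓞 K)ˣ →* (𝓞 K)ˣ).range
  have hfg : Group.FG (𝓞 K)ˣ := Group.fg_iff_monoid_fg.2 inferInstance
  have hRf : R.FiniteIndex := Subgroup.finiteIndex_range_powMonoidHom_of_fg _ hNp.ne'
  have hfin : Finite ((𝓞 K)ˣ ⧸ R) := Subgroup.finite_quotient_of_finiteIndex
  have := Fintype.ofFinite ((𝓞 K)ˣ ⧸ R)
  choose f hf0 hf using fun q : (𝓞 K)ˣ ⧸ R => exists_mod K hNp (Quotient.out q)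
  refine ⟨m0 * ∏ q, f q, Nat.mul_pos hm0 (Finset.prod_pos fun q _ => hf0 q), fun u hu => ?_⟩
  have hu0 : (m0 : 𝓞 K) ∣ (u : 𝓞 K) - 1 :=
    dvd_trans (Nat.cast_dvd_cast (Dvd.intro _ rfl)) hu
  have huq : ((f (u : (𝓞 K)ˣ ⧸ R) : ℕ) : 𝓞 K) ∣ (u : 𝓞 K) - 1 :=
    dvd_trans (Nat.cast_dvd_cast (dvd_mul_of_dvd_right (Finset.dvd_prod_of_mem f
      (Finset.mem_univ _)) _)) hu
  obtain ⟨e, he⟩ : ∃ e : (𝓞 K)ˣ, u = Quotient.out (u : (𝓞 K)ˣ ⧸ R) * e ^ N := by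
    have h1 : (QuotientGroup.mk (Quotient.out (u : (𝓞 K)ˣ ⧸ R)) : (𝓞 K)ˣ ⧸ R) =
        QuotientGroup.mk u := QuotientGroup.out_eq' _
    obtain ⟨e, he⟩ := QuotientGroup.eq.1 h1
    refine ⟨e, ?_⟩
    have he' : e ^ N = (Quotient.out (u : (𝓞 K)ˣ ⧸ R))⁻¹ * u := he
    rw [he', mul_inv_cancel_left]
  obtain ⟨x, hx⟩ := hf (u : (𝓞 K)ˣ ⧸ R) e (by rw [← he]; exact huq)
  rw [← he] at hx
  have hε : (u * (x ^ (k * h))⁻¹) ^ W = 1 := by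
    rw [mul_pow, hx, inv_pow, ← pow_mul, mul_comm (k * h) W, ← hN, mul_inv_cancel]
  have hxm := hh' (x ^ k)
  rw [← pow_mul] at hxm
  have hεm : (m0 : 𝓞 K) ∣ ((u * (x ^ (k * h))⁻¹ : (𝓞 K)ˣ) : 𝓞 K) - 1 := by
    have h1 : ((u * (x ^ (k * h))⁻¹ : (𝓞 K)ˣ) : 𝓞 K) - 1 =
        (((u : 𝓞 K) - 1) - (((x ^ (k * h) : (𝓞 K)ˣ) : 𝓞 K) - 1)) *
          (((x ^ (k * h))⁻¹ : (𝓞 K)ˣ) : 𝓞 K) := by
      have h2 : ((x ^ (k * h) : (𝓞 K)ˣ) : 𝓞 K) * (((x ^ (k * h))⁻¹ : (𝓞 K)ˣ) : 𝓞 K) = 1 :=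
        Units.mul_inv _
      rw [Units.val_mul]
      linear_combination h2
    rw [h1]
    exact Dvd.dvd.mul_right (dvd_sub hu0 hxm) _
  have h1 := hm0' _ hε hεm
  refine ⟨x ^ h, ?_⟩
  rw [← pow_mul, mul_comm h k]
  exact (mul_inv_eq_one.1 h1)

end

end Pool.Agent.V8H98.CHV
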