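import Mathlib

/-!
# Kolchin's theorem over the rational numbers

The trace criterion is copied from `Pool.Agent.H420_NCF.TRN`.
-/

set_option autoImplicit false

namespace Pool.Agent.V8H98.CHV

open Polynomial

theorem tr_X_mul {V : Type} [AddCommGroup V] [Module ℚ V] [FiniteDimensional ℚ V]
    (f : V →ₗ[ℚ] V) (h : ∀ i : ℕ, 0 < i → LinearMap.trace ℚ V (f ^ i) = 0) (w : ℚ[X]) :
    LinearMap.trace ℚ V (aeval (R := ℚ) (A := Module.End ℚ V) f (X * w)) = 0 := by
  induction w using Polynomial.induction_on' with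
  | add p q hp hq => rw [mul_add, map_add, map_add, hp, hq, add_zero]
  | monomial n a =>
    rw [X_mul_monomial, aeval_monomial, ← Algebra.smul_def, map_smul]
    erw [h (n + 1) (Nat.succ_pos n)]
    simp

theorem nil_of_tr (V : Type) [AddCommGroup V] [Module ℚ V] [FiniteDimensional ℚ V]
    (f : V →ₗ[ℚ] V) (h : ∀ i : ℕ, 0 < i → LinearMap.trace ℚ V (f ^ i) = 0) : IsNilpotent f := by
  obtain ⟨g, hg, hng⟩ := exists_eq_pow_rootMultiplicity_mul_and_not_dvd (LinearMap.charpoly f)
    (LinearMap.charpoly_monic f).ne_zero 0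
  rw [C_0, sub_zero] at hg hng
  set a := (LinearMap.charpoly f).rootMultiplicity 0
  have hp : aeval (R := ℚ) (A := Module.End ℚ V) f (LinearMap.charpoly f) = 0 :=
    LinearMap.aeval_self_charpoly f
  have hcop : IsCoprime ((X : ℚ[X]) ^ (a + 1)) g :=
    ((irreducible_X.coprime_iff_not_dvd).2 hng).pow_left
  obtain ⟨u, v, huv⟩ := hcop
  set e : Module.End ℚ V := aeval (R := ℚ) (A := Module.End ℚ V) f (u * X ^ (a + 1)) with he
  have h0 : aeval (R := ℚ) (A := Module.End ℚ V) f (X ^ a * g) = 0 := by rw [← hg]; exact hp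
  have hidem : e * e = e := by
    have h1 : (u * X ^ (a + 1)) * (u * X ^ (a + 1)) =
        u * X ^ (a + 1) - (u * v * X) * (X ^ a * g) := by
      have : v * g = 1 - u * X ^ (a + 1) := by rw [← huv]; ring
      calc (u * X ^ (a + 1)) * (u * X ^ (a + 1))
          = u * X ^ (a + 1) - u * X ^ (a + 1) * (1 - u * X ^ (a + 1)) := by ring
        _ = _ := by rw [← this]; ring
    rw [he, ← map_mul, h1, map_sub, map_mul _ _ (X ^ a * g), h0, mul_zero, sub_zero]
  have htr : LinearMap.trace ℚ V e = 0 := by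
    have : u * X ^ (a + 1) = X * (u * X ^ a) := by ring
    rw [he, this]
    exact tr_X_mul f h _
  have hproj : LinearMap.IsProj (LinearMap.range e) e :=
    LinearMap.IsIdempotentElem.isProj_range _ hidem
  have hr := hproj.trace
  rw [htr] at hr
  have hr' : Module.finrank ℚ (LinearMap.range e) = 0 := by exact_mod_cast hr.symm
  have he0 : e = 0 := by
    rw [← LinearMap.range_eq_bot]
    exact Submodule.finrank_eq_zero.1 hr'
  have h2 : aeval (R := ℚ) (A := Module.End ℚ V) f (v * g) = 1 := by
    have : v * g = 1 - u * X ^ (a + 1) := by rw [← huv]; ring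
    rw [this, map_sub, map_one, ← he, he0, sub_zero]
  refine ⟨a, ?_⟩
  have h3 : f ^ a = aeval (R := ℚ) (A := Module.End ℚ V) f (v * (X ^ a * g)) := by
    rw [show v * (X ^ a * g) = X ^ a * (v * g) by ring, map_mul, h2, mul_one, map_pow, aeval_X]
  rw [h3, map_mul, h0, mul_zero]

attribute [local instance 100] LieRing.ofAssociativeRing

/-- Kolchin: a group of unipotent operators has a fixed vector. -/
theorem kolchin {B U : Type} [Group B] [AddCommGroup U] [Module ℚ U] [FiniteDimensional ℚ U]
    [Nontrivial U] (σ : B →* Module.End ℚ U) (hσ : ∀ b, IsNilpotent (σ b - 1)) :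
    ∃ u : U, u ≠ 0 ∧ ∀ b, σ b u = u := by
  classical
  let I : Submodule ℚ (Module.End ℚ U) := Submodule.span ℚ (Set.range fun b => σ b - 1)
  have hmul : ∀ x ∈ I, ∀ y ∈ I, x * y ∈ I := by
    intro x hx y hy
    have h1 : ∀ b, ∀ y ∈ I, (σ b - 1) * y ∈ I := by
      intro b y hy
      induction hy using Submodule.span_induction with
      | mem y hy =>
        obtain ⟨c, rfl⟩ := hy
        have : (σ b - 1) * (σ c - 1) = (σ (b * c) - 1) - (σ b - 1) - (σ c - 1) := by
          rw [map_mul]; noncomm_ring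
        show (σ b - 1) * (σ c - 1) ∈ I
        rw [this]
        exact I.sub_mem (I.sub_mem (Submodule.subset_span ⟨_, rfl⟩)
          (Submodule.subset_span ⟨_, rfl⟩)) (Submodule.subset_span ⟨_, rfl⟩)
      | zero => rw [mul_zero]; exact I.zero_mem
      | add a c _ _ ha hc => rw [mul_add]; exact I.add_mem ha hc
      | smul r z _ hz => rw [mul_smul_comm]; exact I.smul_mem r hz
    induction hx using Submodule.span_induction with
    | mem x hx =>
      obtain ⟨b, rfl⟩ := hx
      exact h1 b y hy
    | zero => rw [zero_mul]; exact I.zero_mem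
    | add a c _ _ ha hc => rw [add_mul]; exact I.add_mem ha hc
    | smul r z _ hz => rw [smul_mul_assoc]; exact I.smul_mem r hz
  have htr : ∀ x ∈ I, LinearMap.trace ℚ U x = 0 := by
    intro x hx
    induction hx using Submodule.span_induction with
    | mem x hx =>
      obtain ⟨b, rfl⟩ := hx
      exact (LinearMap.isNilpotent_trace_of_isNilpotent (hσ b)).eq_zero
    | zero => rw [map_zero]
    | add a c _ _ ha hc => rw [map_add, ha, hc, add_zero]
    | smul r z _ hz => rw [map_smul, hz, smul_zero]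
  have hpow : ∀ x ∈ I, ∀ i : ℕ, 0 < i → x ^ i ∈ I := by
    intro x hx i hi
    induction i with
    | zero => exact absurd hi (lt_irrefl 0)
    | succ i ih =>
      rcases Nat.eq_zero_or_pos i with h | h
      · rw [h, zero_add, pow_one]; exact hx
      · rw [pow_succ]; exact hmul _ (ih h) _ hx
  have hnil : ∀ x ∈ I, IsNilpotent x := fun x hx =>
    nil_of_tr U x fun i hi => htr _ (hpow x hx i hi)
  let L : LieSubalgebra ℚ (Module.End ℚ U) :=
    { I with
      lie_mem' := fun {x y} hx hy => by
        show ⁅x, y⁆ ∈ I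
        rw [Ring.lie_def]
        exact I.sub_mem (hmul x hx y hy) (hmul y hy x hx) }
  have hnl : LieModule.IsNilpotent L U := by
    rw [LieModule.isNilpotent_iff_forall' (R := ℚ)]
    rintro ⟨x, hx⟩
    exact hnil x hx
  have hnt := LieModule.nontrivial_max_triv_of_isNilpotent ℚ L U
  obtain ⟨⟨u, hu⟩, hu0⟩ := exists_ne (0 : LieModule.maxTrivSubmodule ℚ L U)
  refine ⟨u, fun h => hu0 (Subtype.ext h), fun b => ?_⟩
  rw [LieModule.mem_maxTrivSubmodule] at hu
  have h1 := hu ⟨σ b - 1, Submodule.subset_span ⟨b, rfl⟩⟩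
  have h2 : (σ b - 1 : Module.End ℚ U) u = 0 := h1
  rw [LinearMap.sub_apply, Module.End.one_apply, sub_eq_zero] at h2
  exact h2

end Pool.Agent.V8H98.CHV
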