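import Mathlib

/-!
# Subrepresentations and quotient representations
-/

set_option autoImplicit false

namespace Pool.Agent.V8H98.CHV

section reps

variable {k B V : Type} [Field k] [Group B] [AddCommGroup V] [Module k V]

/-- the restriction to a stable subspace -/
def resRep (ρ : B →* Module.End k V) (W : Submodule k V) (hW : ∀ b, ∀ w ∈ W, ρ b w ∈ W) :
    B →* Module.End k W where
  toFun b := (ρ b).restrict (hW b)
  map_one' := by
    ext w
    simp [LinearMap.restrict_apply]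
  map_mul' a b := by
    ext w
    simp [LinearMap.restrict_apply]

lemma resRep_apply (ρ : B →* Module.End k V) (W : Submodule k V)
    (hW : ∀ b, ∀ w ∈ W, ρ b w ∈ W) (b : B) (w : W) : ((resRep ρ W hW b w : W) : V) = ρ b w := rfl

/-- the quotient by a stable subspace -/
def quoRep (ρ : B →* Module.End k V) (W : Submodule k V) (hW : ∀ b, ∀ w ∈ W, ρ b w ∈ W) :
    B →* Module.End k (V ⧸ W) where
  toFun b := W.mapQ W (ρ b) (hW b)
  map_one' := by
    ext w
    simp
  map_mul' a b := by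
    ext w
    simp

lemma quoRep_apply (ρ : B →* Module.End k V) (W : Submodule k V)
    (hW : ∀ b, ∀ w ∈ W, ρ b w ∈ W) (b : B) (v : V) :
    quoRep ρ W hW b (W.mkQ v) = W.mkQ (ρ b v) := rfl

lemma resRep_nil (ρ : B →* Module.End k V) (W : Submodule k V)
    (hW : ∀ b, ∀ w ∈ W, ρ b w ∈ W) (b : B) (h : IsNilpotent (ρ b - 1)) :
    IsNilpotent (resRep ρ W hW b - 1) := by
  obtain ⟨n, hn⟩ := h
  refine ⟨n, ?_⟩
  have h1 : ∀ (e : ℕ) (w : W), (((resRep ρ W hW b - 1) ^ e) w : V) = ((ρ b - 1) ^ e) (w : V) := by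
    intro e
    induction e with
    | zero => intro w; rfl
    | succ e ih =>
      intro w
      rw [pow_succ, Module.End.mul_apply, ih, pow_succ, Module.End.mul_apply]
      rfl
  ext w
  rw [h1, hn]
  rfl

lemma quoRep_nil (ρ : B →* Module.End k V) (W : Submodule k V)
    (hW : ∀ b, ∀ w ∈ W, ρ b w ∈ W) (b : B) (h : IsNilpotent (ρ b - 1)) :
    IsNilpotent (quoRep ρ W hW b - 1) := by
  obtain ⟨n, hn⟩ := h
  refine ⟨n, ?_⟩
  have h1 : ∀ (e : ℕ) (v : V), ((quoRep ρ W hW b - 1) ^ e) (W.mkQ v) =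
      W.mkQ (((ρ b - 1) ^ e) v) := by
    intro e
    induction e with
    | zero => intro w; rfl
    | succ e ih =>
      intro w
      rw [pow_succ, Module.End.mul_apply, pow_succ, Module.End.mul_apply, LinearMap.sub_apply,
        quoRep_apply, Module.End.one_apply, ← map_sub, ih]
      rfl
  apply LinearMap.ext
  intro u
  obtain ⟨v, rfl⟩ := W.mkQ_surjective u
  rw [h1, hn]
  rfl

/-- a maximal proper stable subspace -/
lemma exists_max [FiniteDimensional k V] [Nontrivial V] (ρ : B →* Module.End k V) :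
    ∃ W : Submodule k V, ∃ hW : ∀ b, ∀ w ∈ W, ρ b w ∈ W, W ≠ ⊤ ∧
      ∀ F : Submodule k (V ⧸ W), (∀ b, ∀ w ∈ F, quoRep ρ W hW b w ∈ F) → F = ⊥ ∨ F = ⊤ := by
  obtain ⟨W, ⟨hW1, hW2⟩, hW3⟩ := (wellFounded_gt (α := Submodule k V)).has_min
    {W | W ≠ ⊤ ∧ ∀ b, ∀ w ∈ W, ρ b w ∈ W} ⟨⊥, bot_ne_top, fun b w hw => by
      rw [Submodule.mem_bot] at hw ⊢
      rw [hw, map_zero]⟩
  refine ⟨W, hW2, hW1, fun F hF => ?_⟩
  by_cases h : F.comap W.mkQ = ⊤
  · right
    rw [eq_top_iff]
    intro u _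
    obtain ⟨v, rfl⟩ := W.mkQ_surjective u
    have : v ∈ F.comap W.mkQ := by rw [h]; trivial
    exact this
  · left
    have h1 := hW3 (F.comap W.mkQ) ⟨h, fun b w hw => by
      rw [Submodule.mem_comap] at hw ⊢
      rw [← quoRep_apply ρ W hW2]
      exact hF b _ hw⟩
    have h2 : W ≤ F.comap W.mkQ := by
      intro w hw
      have h5 : W.mkQ w = 0 := (Submodule.Quotient.mk_eq_zero W).2 hw
      rw [Submodule.mem_comap, h5]
      exact F.zero_mem
    have h3 : F.comap W.mkQ = W := by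
      by_contra h4
      exact h1 (lt_of_le_of_ne h2 (Ne.symm h4))
    rw [eq_bot_iff]
    intro u hu
    obtain ⟨v, rfl⟩ := W.mkQ_surjective u
    have : v ∈ W := by
      rw [← h3]; exact hu
    rw [Submodule.mem_bot]
    exact (Submodule.Quotient.mk_eq_zero W).2 this

end reps

end Pool.Agent.V8H98.CHV
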