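import Mathlib

/-!
# A step lemma for the congruence property
-/

set_option autoImplicit false

namespace Pool.Agent.V8H98.CHV

lemma tors_exp_mod (M : Type) [AddCommGroup M] [Module.Finite ℤ M] :
    ∃ c : ℕ, 0 < c ∧ ∀ (x : M) (n : ℕ), 0 < n → n • x = 0 → c • x = 0 := by
  classical
  set T : Submodule ℤ M := Submodule.torsion ℤ M with hT
  have hfg : Module.Finite ℤ T := inferInstance
  obtain ⟨s, hs⟩ := hfg.fg_top
  have h1 : ∀ x : T, ∃ n : ℕ, 0 < n ∧ n • x = 0 := by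
    rintro ⟨x, hx⟩
    rw [hT, Submodule.mem_torsion_iff] at hx
    obtain ⟨a, ha⟩ := hx
    have ha0 : (a : ℤ) ≠ 0 := nonZeroDivisors.ne_zero a.2
    refine ⟨(a : ℤ).natAbs, Int.natAbs_pos.2 ha0, ?_⟩
    apply Subtype.ext
    show (a : ℤ).natAbs • x = 0
    rcases Int.natAbs_eq (a : ℤ) with h | h
    · have : ((a : ℤ).natAbs : ℤ) • x = 0 := by
        rw [← h]; exact ha
      rwa [natCast_zsmul] at this
    · have : ((a : ℤ).natAbs : ℤ) • x = 0 := by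
        have h2 : ((a : ℤ).natAbs : ℤ) = - (a : ℤ) := by omega
        rw [h2, neg_smul]
        rw [neg_eq_zero]
        exact ha
      rwa [natCast_zsmul] at this
  choose f hf0 hf using h1
  refine ⟨∏ x ∈ s, f x, Finset.prod_pos fun x _ => hf0 x, ?_⟩
  intro x n hn hx
  have hxT : x ∈ T := by
    rw [hT, Submodule.mem_torsion_iff]
    refine ⟨⟨(n : ℤ), mem_nonZeroDivisors_of_ne_zero (by exact_mod_cast hn.ne')⟩, ?_⟩
    show (n : ℤ) • x = 0
    rw [natCast_zsmul]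
    exact hx
  have h2 : (⟨x, hxT⟩ : T) ∈ Submodule.span ℤ (s : Set T) := by
    rw [hs]; trivial
  have h3 : ∀ y ∈ Submodule.span ℤ (s : Set T), (∏ x ∈ s, f x) • y = 0 := by
    intro y hy
    induction hy using Submodule.span_induction with
    | mem y hy =>
      obtain ⟨k, hk⟩ := Finset.dvd_prod_of_mem f hy
      rw [hk, mul_comm, mul_smul, hf, smul_zero]
    | zero => rw [smul_zero]
    | add a b _ _ ha hb => rw [smul_add, ha, hb, add_zero]
    | smul a y _ hy => rw [smul_comm, hy, smul_zero]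
  have h4 := h3 _ h2
  exact congrArg Subtype.val h4

lemma sat_exp (Q : Type) [CommGroup Q] [Group.FG Q] (D : Subgroup Q) :
    ∃ c : ℕ, 0 < c ∧ ∀ (q : Q) (n : ℕ), 0 < n → q ^ n ∈ D → q ^ c ∈ D := by
  have h1 : Group.FG (Q ⧸ D) := QuotientGroup.fg _
  have h2 : AddGroup.FG (Additive (Q ⧸ D)) := AddGroup.fg_iff_mul_fg.2 h1
  have h3 : Module.Finite ℤ (Additive (Q ⧸ D)) := Module.Finite.iff_addGroup_fg.2 h2
  obtain ⟨c, hc, h⟩ := tors_exp_mod (Additive (Q ⧸ D))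
  refine ⟨c, hc, fun q n hn hq => ?_⟩
  have h4 := h (Additive.ofMul (q : Q ⧸ D)) n hn (by
    rw [← ofMul_pow, ← QuotientGroup.mk_pow, (QuotientGroup.eq_one_iff _).2 hq]
    rfl)
  rw [← ofMul_pow, ← QuotientGroup.mk_pow] at h4
  exact (QuotientGroup.eq_one_iff _).1 (Additive.ofMul.injective h4)

variable {A : Type} [Group A]

/-- A family of subgroups of finite index which is antitone for divisibility. -/
structure Filt (C : ℕ → Subgroup A) : Prop where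
  mono : ∀ {m m' : ℕ}, m ∣ m' → C m' ≤ C m
  fin : ∀ {m : ℕ}, 0 < m → (C m).FiniteIndex
  nor : ∀ m : ℕ, (C m).Normal

/-- `V` contains the elements of `A0` in some `C m`. -/
def Opn (C : ℕ → Subgroup A) (V A0 : Subgroup A) : Prop := ∃ m : ℕ, 0 < m ∧ A0 ⊓ C m ≤ V

theorem step {C : ℕ → Subgroup A} (hC : Filt C) {V : Subgroup A} (hV : V.FiniteIndex)
    (hVn : V.Normal) {A0 A1 : Subgroup A} {Q : Type} [CommGroup Q] [Group.FG Q] (f : A0 →* Q)
    (hker : ∀ a : A0, f a = 1 → a.1 ∈ A1)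
    (hf : ∀ k : ℕ, 0 < k → ∃ m : ℕ, 0 < m ∧ ∀ a : A0, a.1 ∈ C m → ∃ q : Q, f a = q ^ k)
    (h1 : Opn C V A1) : Opn C V A0 := by
  obtain ⟨m1, hm1, hV1⟩ := h1
  obtain ⟨c, hc, hsat⟩ := sat_exp Q f.range
  have hCm := hC.fin hm1
  have hCn := hC.nor m1
  set k := V.index * (C m1).index with hk
  have hk0 : 0 < k := Nat.mul_pos (Nat.pos_of_ne_zero hV.index_ne_zero)
    (Nat.pos_of_ne_zero hCm.index_ne_zero)
  obtain ⟨m2, hm2, h2⟩ := hf (c * k) (Nat.mul_pos hc hk0)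
  refine ⟨m1 * m2, Nat.mul_pos hm1 hm2, ?_⟩
  rintro a ⟨ha0, ha⟩
  obtain ⟨q, hq⟩ := h2 ⟨a, ha0⟩ (hC.mono (Dvd.intro_left m1 rfl) ha)
  obtain ⟨b, hb⟩ := hsat q (c * k) (Nat.mul_pos hc hk0) ⟨_, hq⟩
  have h3 : f ⟨a, ha0⟩ = f (b ^ k) := by
    rw [hq, map_pow, hb, pow_mul]
  have h4 : f (⟨a, ha0⟩ * (b ^ k)⁻¹) = 1 := by
    rw [map_mul, map_inv, h3, mul_inv_cancel]
  have h5 := hker _ h4
  have hbV : (b.1) ^ k ∈ V := by
    rw [hk, pow_mul]
    exact V.pow_mem (Subgroup.pow_index_mem V b.1) _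
  have hbC : (b.1) ^ k ∈ C m1 := by
    rw [hk, mul_comm, pow_mul]
    exact (C m1).pow_mem (Subgroup.pow_index_mem (C m1) b.1) _
  have h6 : a * (b.1 ^ k)⁻¹ ∈ V := by
    apply hV1
    refine ⟨h5, (C m1).mul_mem (hC.mono (Dvd.intro m2 rfl) ha) ((C m1).inv_mem hbC)⟩
  have h7 := V.mul_mem h6 hbV
  rwa [inv_mul_cancel_right] at h7

end Pool.Agent.V8H98.CHV
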