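import Pool.Agent.V8H98.CHV.Chev
import Pool.Agent.V8H98.CHV.Step
import Pool.Agent.V8H98.CHV.Kol
import Pool.Agent.V8H98.CHV.Fld
import Pool.Agent.V8H98.CHV.Rep

/-!
# The congruence property for integral representations with unipotent commutators
-/

set_option autoImplicit false

open NumberField Module

namespace Pool.Agent.V8H98.CHV

section reps

variable {B V : Type} [Group B] [AddCommGroup V] [Module ℚ V]

/-- Irreducible representations with unipotent commutators are commutative. -/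
lemma comm_of_irr [FiniteDimensional ℚ V] [Nontrivial V] (σ : B →* Module.End ℚ V)
    (hu : ∀ x ∈ commutator B, IsNilpotent (σ x - 1))
    (hirr : ∀ W : Submodule ℚ V, (∀ b, ∀ w ∈ W, σ b w ∈ W) → W = ⊥ ∨ W = ⊤) :
    ∀ a b, σ a * σ b = σ b * σ a := by
  obtain ⟨u, hu0, hu1⟩ := kolchin (σ.comp (commutator B).subtype) (fun b => hu _ b.2)
  let F : Submodule ℚ V :=
    { carrier := {v | ∀ x ∈ commutator B, σ x v = v}
      zero_mem' := fun x _ => map_zero _
      add_mem' := fun {a b} ha hb x hx => by rw [map_add, ha x hx, hb x hx]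
      smul_mem' := fun r v hv x hx => by rw [map_smul, hv x hx] }
  have hF : F = ⊤ := by
    rcases hirr F (fun b w hw x hx => by
      have h1 : b⁻¹ * x * b ∈ commutator B := by
        have := (inferInstance : (commutator B).Normal).conj_mem x hx b⁻¹
        rwa [inv_inv] at this
      have h2 := hw _ h1
      have h3 : σ x (σ b w) = σ b (σ (b⁻¹ * x * b) w) := by
        rw [← Module.End.mul_apply, ← Module.End.mul_apply, ← map_mul, ← map_mul]
        congr 2
        group
      rw [h3, h2]) with h | h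
    · exfalso
      have : u ∈ F := fun x hx => hu1 ⟨x, hx⟩
      rw [h] at this
      exact hu0 this
    · exact h
  intro a b
  have h1 : ∀ x ∈ commutator B, σ x = 1 := by
    intro x hx
    ext v
    have : v ∈ F := by rw [hF]; trivial
    exact this x hx
  have h2 : a * b = (a * b * a⁻¹ * b⁻¹) * (b * a) := by group
  rw [← map_mul, ← map_mul, h2, map_mul, h1 _ ?_, one_mul]
  have := Subgroup.commutator_mem_commutator (Subgroup.mem_top a) (Subgroup.mem_top b)
  rwa [commutatorElement_def] at this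

end reps

variable {A : Type} [Group A]

/-- An integral representation of a subgroup for which the `C m` act trivially modulo `m`. -/
structure IntRep (C : ℕ → Subgroup A) {A0 : Subgroup A} {V : Type} [AddCommGroup V] [Module ℚ V]
    (ρ : A0 →* Module.End ℚ V) (Λ : Submodule ℤ V) : Prop where
  fg : Λ.FG
  full : ∀ v : V, ∃ n : ℕ, 0 < n ∧ n • v ∈ Λ
  stab : ∀ a, ∀ v ∈ Λ, ρ a v ∈ Λ
  cong : ∀ m : ℕ, 0 < m → ∀ a : A0, a.1 ∈ C m → ∀ v ∈ Λ, ∃ w ∈ Λ, ρ a v = v + m • w

lemma IntRep.quo {C : ℕ → Subgroup A} {A0 : Subgroup A} {V : Type} [AddCommGroup V] [Module ℚ V]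
    {ρ : A0 →* Module.End ℚ V} {Λ : Submodule ℤ V} (h : IntRep C ρ Λ) (W : Submodule ℚ V)
    (hW : ∀ b, ∀ w ∈ W, ρ b w ∈ W) :
    IntRep C (quoRep ρ W hW) (Λ.map (W.mkQ.restrictScalars ℤ)) where
  fg := h.fg.map _
  full := by
    intro u
    obtain ⟨v, rfl⟩ := W.mkQ_surjective u
    obtain ⟨n, hn, hnv⟩ := h.full v
    exact ⟨n, hn, ⟨n • v, hnv, map_nsmul _ _ _⟩⟩
  stab := by
    rintro a _ ⟨v, hv, rfl⟩
    exact ⟨ρ a v, h.stab a v hv, rfl⟩
  cong := by
    rintro m hm a ha _ ⟨v, hv, rfl⟩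
    obtain ⟨w, hw, hvw⟩ := h.cong m hm a ha v hv
    refine ⟨W.mkQ w, ⟨w, hw, rfl⟩, ?_⟩
    show W.mkQ (ρ a v) = _
    rw [hvw, map_add, map_nsmul]
    rfl

lemma IntRep.res {C : ℕ → Subgroup A} {A0 A1 : Subgroup A} (h01 : A1 ≤ A0) {V : Type}
    [AddCommGroup V] [Module ℚ V]
    {ρ : A0 →* Module.End ℚ V} {Λ : Submodule ℤ V} (h : IntRep C ρ Λ) (W : Submodule ℚ V)
    (hW : ∀ b, ∀ w ∈ W, ρ b w ∈ W) :
    IntRep C ((resRep ρ W hW).comp (Subgroup.inclusion h01))
      (Λ.comap (W.subtype.restrictScalars ℤ)) where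
  fg := by
    have h1 : IsNoetherian ℤ Λ := isNoetherian_of_fg_of_noetherian _ h.fg
    apply Submodule.fg_of_fg_map_injective (W.subtype.restrictScalars ℤ) W.subtype_injective
    apply isNoetherian_submodule.1 h1
    rintro _ ⟨w, hw, rfl⟩
    exact hw
  full := by
    intro w
    obtain ⟨n, hn, hnv⟩ := h.full (w : V)
    exact ⟨n, hn, by
      rw [Submodule.mem_comap]
      exact hnv⟩
  stab := by
    intro a w hw
    exact h.stab _ _ hw
  cong := by
    intro m hm a ha w hw
    obtain ⟨u, hu, hvu⟩ := h.cong m hm (Subgroup.inclusion h01 a) ha (w : V) hw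
    have h1 : (m : ℚ) • u ∈ W := by
      have h2 : (m : ℚ) • u = ρ (Subgroup.inclusion h01 a) (w : V) - w := by
        rw [hvu, Nat.cast_smul_eq_nsmul, add_sub_cancel_left]
      rw [h2]
      exact W.sub_mem (hW _ _ w.2) w.2
    have h3 : u ∈ W := by
      have h4 := W.smul_mem ((m : ℚ)⁻¹) h1
      rwa [smul_smul, inv_mul_cancel₀ (by exact_mod_cast hm.ne'), one_smul] at h4
    refine ⟨⟨u, h3⟩, hu, ?_⟩
    apply Subtype.ext
    exact hvu

lemma IntRep.eq_of_lat {C : ℕ → Subgroup A} {A0 : Subgroup A} {V : Type} [AddCommGroup V]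
    [Module ℚ V] {ρ : A0 →* Module.End ℚ V} {Λ : Submodule ℤ V} (h : IntRep C ρ Λ) (a : A0)
    (ha : ∀ v ∈ Λ, ρ a v = v) : ρ a = 1 := by
  ext v
  obtain ⟨n, hn, hnv⟩ := h.full v
  have h1 := ha _ hnv
  rw [map_nsmul] at h1
  have h2 : n • (ρ a v - v) = 0 := by rw [smul_sub, h1, sub_self]
  exact sub_eq_zero.1 (nsmul_zero' hn h2)

/-- The last layer: the operators which are trivial on `W` and modulo `W`. -/
lemma hom_layer {C : ℕ → Subgroup A} (hC : Filt C) {N : Subgroup A} (hN : N.FiniteIndex)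
    (hNn : N.Normal) {A0 A2 : Subgroup A} (h02 : A2 ≤ A0) {V : Type} [AddCommGroup V]
    [Module ℚ V] {ρ : A0 →* Module.End ℚ V} {Λ : Submodule ℤ V} (h : IntRep C ρ Λ)
    (W : Submodule ℚ V)
    (h1 : ∀ a (ha : a ∈ A2), ∀ w ∈ W, ρ ⟨a, h02 ha⟩ w = w)
    (h2 : ∀ a (ha : a ∈ A2), ∀ v, ρ ⟨a, h02 ha⟩ v - v ∈ W)
    (ho : Opn C N (ρ.ker.map A0.subtype)) : Opn C N A2 := by
  have hno : IsNoetherian ℤ Λ := isNoetherian_of_fg_of_noetherian _ h.fg
  have hfin : Module.Finite ℤ Λ := inferInstance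
  have htf : IsAddTorsionFree Λ := by
    refine ⟨fun n hn x y hxy => ?_⟩
    have h3 : n • ((x : V) - y) = 0 := by
      rw [smul_sub, sub_eq_zero]
      exact congrArg Subtype.val hxy
    exact Subtype.ext (sub_eq_zero.1 (nsmul_zero' (Nat.pos_of_ne_zero hn) h3))
  have hfree : Module.Free ℤ Λ := inferInstance
  have hQ1 : Module.Finite ℤ (Λ →ₗ[ℤ] Λ) := inferInstance
  have hQ2 : AddGroup.FG (Λ →ₗ[ℤ] Λ) := Module.Finite.iff_addGroup_fg.1 hQ1
  have hQ3 : Group.FG (Multiplicative (Λ →ₗ[ℤ] Λ)) := AddGroup.fg_iff_mul_fg.1 hQ2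
  let f0 : A2 → (Λ →ₗ[ℤ] Λ) := fun a =>
    { toFun := fun v => ⟨ρ ⟨a.1, h02 a.2⟩ v - v, Λ.sub_mem (h.stab _ _ v.2) v.2⟩
      map_add' := fun x y => by
        apply Subtype.ext
        show ρ ⟨a.1, h02 a.2⟩ ((x : V) + y) - (x + y) =
          (ρ ⟨a.1, h02 a.2⟩ (x : V) - x) + (ρ ⟨a.1, h02 a.2⟩ (y : V) - y)
        rw [map_add]
        abel
      map_smul' := fun r x => by
        apply Subtype.ext
        show ρ ⟨a.1, h02 a.2⟩ (r • (x : V)) - r • (x : V) = r • (ρ ⟨a.1, h02 a.2⟩ (x : V) - x)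
        rw [map_zsmul, smul_sub] }
  have hf0 : ∀ (a : A2) (v : Λ), ((f0 a v : Λ) : V) = ρ ⟨a.1, h02 a.2⟩ v - v := fun a v => rfl
  let f : A2 →* Multiplicative (Λ →ₗ[ℤ] Λ) :=
    { toFun := fun a => Multiplicative.ofAdd (f0 a)
      map_one' := by
        have : f0 1 = 0 := by
          ext v
          rw [hf0]
          have h3 : (⟨(1 : A2).1, h02 (1 : A2).2⟩ : A0) = 1 := rfl
          rw [h3, map_one]
          show (v : V) - v = 0
          exact sub_self _
        rw [this]
        rfl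
      map_mul' := fun a b => by
        have : f0 (a * b) = f0 a + f0 b := by
          ext v
          rw [hf0]
          have h3 : (⟨(a * b).1, h02 (a * b).2⟩ : A0) = ⟨a.1, h02 a.2⟩ * ⟨b.1, h02 b.2⟩ := rfl
          have h4 := h1 a.1 a.2 _ (h2 b.1 b.2 v)
          rw [map_sub] at h4
          rw [h3, map_mul, Module.End.mul_apply]
          show _ = (ρ ⟨a.1, h02 a.2⟩ (v : V) - v) + (ρ ⟨b.1, h02 b.2⟩ (v : V) - v)
          rw [← h4]
          abel
        rw [this]
        rfl }
  refine step hC hN hNn f ?_ ?_ ho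
  · intro a ha
    refine ⟨⟨a.1, h02 a.2⟩, ?_, rfl⟩
    apply h.eq_of_lat
    intro v hv
    have h3 : f0 a = 0 := Multiplicative.ofAdd.injective ha
    have h4 := congrArg (fun g : Λ →ₗ[ℤ] Λ => ((g ⟨v, hv⟩ : Λ) : V)) h3
    simp only [hf0] at h4
    exact sub_eq_zero.1 h4
  · intro k hk
    refine ⟨k, hk, fun a ha => ?_⟩
    have h3 : ∀ v : Λ, ∃ w : Λ, k • w = f0 a v := by
      intro v
      obtain ⟨w, hw, hvw⟩ := h.cong k hk ⟨a.1, h02 a.2⟩ ha v v.2
      refine ⟨⟨w, hw⟩, ?_⟩
      apply Subtype.ext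
      rw [hf0, hvw, add_sub_cancel_left]
      rfl
    choose g hg using h3
    have hinj : ∀ x y : Λ, k • x = k • y → x = y := fun x y hxy =>
      htf.nsmul_right_injective hk.ne' hxy
    let g' : Λ →ₗ[ℤ] Λ :=
      { toFun := g
        map_add' := fun x y => hinj _ _ (by rw [smul_add, hg, hg, hg, map_add])
        map_smul' := fun r x => hinj _ _ (by
          rw [hg, map_smul, ← hg, smul_comm]
          rfl) }
    refine ⟨Multiplicative.ofAdd g', ?_⟩
    show Multiplicative.ofAdd (f0 a) = (Multiplicative.ofAdd g') ^ k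
    rw [← ofAdd_nsmul]
    congr 1
    ext v
    rw [← hg]
    rfl

/-- The congruence property for integral representations with unipotent commutators. -/
theorem lin {C : ℕ → Subgroup A} (hC : Filt C) {N : Subgroup A} (hN : N.FiniteIndex)
    (hNn : N.Normal) (d : ℕ) : ∀ (V : Type) [AddCommGroup V] [Module ℚ V] [FiniteDimensional ℚ V]
    (A0 : Subgroup A) (ρ : A0 →* Module.End ℚ V) (Λ : Submodule ℤ V), finrank ℚ V ≤ d →
      IntRep C ρ Λ → (∀ x ∈ commutator A0, IsNilpotent (ρ x - 1)) →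
        Opn C N (ρ.ker.map A0.subtype) → Opn C N A0 := by
  have triv : ∀ (V : Type) [AddCommGroup V] [Module ℚ V] (A0 : Subgroup A)
      (ρ : A0 →* Module.End ℚ V), Subsingleton V → Opn C N (ρ.ker.map A0.subtype) →
        Opn C N A0 := by
    intro V _ _ A0 ρ hs ho
    have h1 : ρ.ker.map A0.subtype = A0 := by
      have : ρ.ker = ⊤ := by
        rw [eq_top_iff]
        intro a _
        rw [MonoidHom.mem_ker]
        ext v
        exact Subsingleton.elim _ _
      rw [this, ← MonoidHom.range_eq_map, Subgroup.range_subtype]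
    rwa [h1] at ho
  induction d with
  | zero =>
    intro V _ _ _ A0 ρ Λ hd _ _ ho
    exact triv V A0 ρ (Module.finrank_zero_iff.1 (Nat.le_zero.1 hd)) ho
  | succ d ih =>
    intro V _ _ _ A0 ρ Λ hd h hu ho
    rcases subsingleton_or_nontrivial V with hs | hs
    · exact triv V A0 ρ hs ho
    obtain ⟨W, hW, hWt, hirr⟩ := exists_max ρ
    have hnt : Nontrivial (V ⧸ W) := Submodule.Quotient.nontrivial_iff.2 hWt
    have hcomm := comm_of_irr (quoRep ρ W hW) (fun x hx => quoRep_nil ρ W hW x (hu x hx)) hirr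
    have hq := h.quo W hW
    obtain ⟨K, hK1, hK2, χ, hχ1, hχ2⟩ := irred_char (quoRep ρ W hW) hcomm hirr _ hq.fg hq.full
      hq.stab
    have hfg : Group.FG (𝓞 K)ˣ := Group.fg_iff_monoid_fg.2 inferInstance
    have h01 : χ.ker.map A0.subtype ≤ A0 := by
      rintro _ ⟨a, _, rfl⟩
      exact a.2
    refine step hC hN hNn (A1 := χ.ker.map A0.subtype) χ (fun a ha => ⟨a, ha, rfl⟩) ?_ ?_
    · intro k hk
      obtain ⟨m, hm, hm2⟩ := chevalley K hk
      refine ⟨m, hm, fun a ha => ?_⟩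
      exact hm2 _ (hχ2 m hm a (hq.cong m hm a ha))
    · have hfr : finrank ℚ W ≤ d := by
        have := Submodule.finrank_lt hWt
        omega
      have h2 := h.res h01 W hW
      refine ih W (χ.ker.map A0.subtype) _ _ hfr h2 ?_ ?_
      · intro x hx
        have h3 : (commutator (χ.ker.map A0.subtype : Subgroup A)).map (Subgroup.inclusion h01) ≤
            commutator A0 := by
          rw [commutator_def, Subgroup.map_commutator, commutator_def]
          exact Subgroup.commutator_mono le_top le_top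
        exact resRep_nil ρ W hW _ (hu _ (h3 ⟨x, hx, rfl⟩))
      · set ρ1 := (resRep ρ W hW).comp (Subgroup.inclusion h01) with hρ1
        have h12 : ρ1.ker.map (χ.ker.map A0.subtype).subtype ≤ χ.ker.map A0.subtype := by
          rintro _ ⟨a, _, rfl⟩
          exact a.2
        refine hom_layer hC hN hNn (h12.trans h01) h W ?_ ?_ ho
        · rintro _ ⟨a, ha, rfl⟩ w hw
          have h3 : ρ1 a = 1 := ha
          have h4 := congrArg Subtype.val (LinearMap.congr_fun h3 ⟨w, hw⟩)
          exact h4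
        · rintro a ha v
          obtain ⟨b, hb, hba⟩ := h12 ha
          have h3 := hχ1 b hb
          have h4 := LinearMap.congr_fun h3 (W.mkQ v)
          rw [quoRep_apply, Module.End.one_apply] at h4
          rw [← Submodule.Quotient.eq]
          have h5 : (⟨a, (h12.trans h01) ha⟩ : A0) = b := Subtype.ext hba.symm
          rw [h5]
          exact h4

end Pool.Agent.V8H98.CHV
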