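import Pool.Agent.W401.Cheb.Main

/-!
# Units which are powers modulo almost all prime ideals
-/

set_option autoImplicit false

open NumberField Pool.Agent.W401.Cheb

namespace Pool.Agent.V8H98.CHV

/-- A homomorphism to a field which maps a root of unity `η ≠ 1` to `1`. -/
lemma natCast_eq_zero {R k : Type} [CommRing R] [IsDomain R] [Field k] (φ : R →+* k) {η : R}
    {N : ℕ} (h1 : η ^ N = 1) (h2 : η ≠ 1) (h3 : φ η = 1) : (N : k) = 0 := by
  have h4 : (∑ i ∈ Finset.range N, η ^ i) * (η - 1) = 0 := by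
    rw [geom_sum_mul, h1, sub_self]
  have h5 : ∑ i ∈ Finset.range N, η ^ i = 0 :=
    (mul_eq_zero.1 h4).resolve_right (sub_ne_zero.2 h2)
  have h6 := congrArg φ h5
  rw [map_sum, map_zero] at h6
  simpa [h3] using h6

/-- `u` is an `N`-th power modulo the prime ideals of degree one not dividing `N`. -/
def Loc (K : Type) [Field K] [NumberField K] (N : ℕ) (u : 𝓞 K) : Prop :=
  ∀ (p : ℕ) [Fact p.Prime], ¬ p ∣ N → ∀ ψ : 𝓞 K →+* AlgebraicClosure (ZMod p),
    (∀ x, ψ x ^ p = ψ x) → ∃ c, c ^ p = c ∧ ψ u = c ^ N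

section

variable {K Ω : Type} [Field K] [NumberField K] [Field Ω] [NumberField Ω] [IsGalois ℚ Ω]
  [Algebra K Ω]

theorem frob_fix {N : ℕ} (hN : 0 < N) {u : (𝓞 K)ˣ} (hu : Loc K N u) {ζ v : Ω}
    (hζ : IsPrimitiveRoot ζ N) (hv : v ^ N = algebraMap K Ω (u : 𝓞 K)) {σ : Gal(Ω/ℚ)}
    (hσ : ∀ x : K, σ (algebraMap K Ω x) = algebraMap K Ω x) (hσζ : σ ζ = ζ) : σ v = v := by
  by_contra hne
  have hvi : IsIntegral ℤ v := by
    refine IsIntegral.of_pow hN ?_
    rw [hv]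
    exact (RingOfIntegers.isIntegral_coe (u : 𝓞 K)).map (algebraMap K Ω).toIntAlgHom
  have hu0 : algebraMap K Ω (u : 𝓞 K) ≠ 0 := by
    rw [Ne, map_eq_zero]
    have := u.ne_zero
    exact fun h => this (RingOfIntegers.ext (by simpa using h))
  have hv0 : v ≠ 0 := by
    intro h
    rw [h, zero_pow hN.ne'] at hv
    exact hu0 hv.symm
  have hζi : IsIntegral ℤ ζ := hζ.isIntegral hN
  obtain ⟨p, ⟨hp, hx⟩, hpN⟩ := (infinite_frob Ω σ).exists_gt N
  have hpF : Fact p.Prime := ⟨hp⟩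
  have hpd : ¬ p ∣ N := fun h => by
    have := Nat.le_of_dvd hN h
    omega
  obtain ⟨φ, hφ⟩ : ∃ φ : 𝓞 Ω →+* AlgebraicClosure (ZMod p), HasFrob p φ σ := by
    unfold xp at hx
    rw [dif_pos hp] at hx
    obtain ⟨⟨⟨φ₀, hφ₀⟩⟩, -⟩ := Nat.card_ne_zero.1 hx
    exact ⟨φ₀, hφ₀⟩
  have hNk : (N : AlgebraicClosure (ZMod p)) ≠ 0 := by
    intro h
    rw [CharP.cast_eq_zero_iff (AlgebraicClosure (ZMod p)) p] at h
    exact hpd h
  let v0 : 𝓞 Ω := ⟨v, hvi⟩
  let ζ0 : 𝓞 Ω := ⟨ζ, hζi⟩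
  obtain ⟨c, hcp, hc⟩ := hu p hpd (φ.comp (algebraMap (𝓞 K) (𝓞 Ω))) (by
    intro x
    rw [RingHom.comp_apply, ← hφ]
    congr 1
    apply RingOfIntegers.ext
    change σ (algebraMap K Ω (x : K)) = algebraMap K Ω (x : K)
    exact hσ _)
  have hv0N : v0 ^ N = algebraMap (𝓞 K) (𝓞 Ω) u := by
    apply RingOfIntegers.ext
    change v ^ N = algebraMap K Ω (u : 𝓞 K)
    exact hv
  have hφv : φ v0 ^ N = c ^ N := by
    rw [← map_pow, hv0N, ← hc]
    rfl
  have hcu : c ^ N ≠ 0 := by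
    rw [← hc]
    exact (u.isUnit.map (φ.comp (algebraMap (𝓞 K) (𝓞 Ω)))).ne_zero
  have hc0 : c ≠ 0 := by
    intro h
    rw [h, zero_pow hN.ne'] at hcu
    exact hcu rfl
  have hφv0 : φ v0 ≠ 0 := by
    intro h
    rw [h, zero_pow hN.ne'] at hφv
    exact hcu hφv.symm
  have hζ' : IsPrimitiveRoot (φ ζ0) N := by
    refine IsPrimitiveRoot.mk_of_lt _ hN ?_ ?_
    · rw [← map_pow]
      have : ζ0 ^ N = 1 := by
        apply RingOfIntegers.ext
        change ζ ^ N = 1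
        exact hζ.pow_eq_one
      rw [this, map_one]
    · intro l hl hlN h
      rw [← map_pow] at h
      refine hNk (natCast_eq_zero φ (η := ζ0 ^ l) (N := N) ?_ ?_ h)
      · apply RingOfIntegers.ext
        change (ζ ^ l) ^ N = 1
        rw [← pow_mul, mul_comm, pow_mul, hζ.pow_eq_one, one_pow]
      · intro h1
        have h2 : ζ ^ l = 1 := congrArg (fun x : 𝓞 Ω => (x : Ω)) h1
        exact hζ.pow_ne_one_of_pos_of_lt hl.ne' hlN h2
  have : NeZero N := ⟨hN.ne'⟩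
  obtain ⟨j, -, hj⟩ := hζ'.eq_pow_of_pow_eq_one (ξ := φ v0 / c) (by
    rw [div_pow, hφv, div_self hcu])
  have hφv2 : φ v0 = c * φ ζ0 ^ j := by
    rw [hj, mul_div_cancel₀ _ hc0]
  have hσζ0 : σ • ζ0 = ζ0 := by
    apply RingOfIntegers.ext
    change σ ζ = ζ
    exact hσζ
  have hfr : φ (σ • v0) = φ v0 := by
    rw [hφ, hφv2, mul_pow, hcp, ← pow_mul, mul_comm j p, pow_mul, ← hφ, hσζ0]
  have hηN : (σ v / v) ^ N = 1 := by
    rw [div_pow, ← map_pow, hv, hσ, div_self hu0]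
  have hηi : IsIntegral ℤ (σ v / v) := by
    refine IsIntegral.of_pow hN ?_
    rw [hηN]
    exact isIntegral_one
  let η0 : 𝓞 Ω := ⟨σ v / v, hηi⟩
  have hη1 : σ • v0 = η0 * v0 := by
    apply RingOfIntegers.ext
    change σ v = (σ v / v) * v
    rw [div_mul_cancel₀ _ hv0]
  have hη2 : φ η0 = 1 := by
    have h1 : φ η0 * φ v0 = 1 * φ v0 := by
      rw [← map_mul, ← hη1, hfr, one_mul]
    exact mul_right_cancel₀ hφv0 h1
  refine hNk (natCast_eq_zero φ (η := η0) (N := N) ?_ ?_ hη2)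
  · apply RingOfIntegers.ext
    change (σ v / v) ^ N = 1
    exact hηN
  · intro h
    have h2 : σ v / v = 1 := congrArg (fun x : 𝓞 Ω => (x : Ω)) h
    exact hne ((div_eq_one_iff_eq hv0).1 h2)

/-- The element `v ^ a / τ v` is in `K`. -/
theorem exists_y {N : ℕ} (hN : 0 < N) {u : (𝓞 K)ˣ} (hu : Loc K N u) {ζ v : Ω}
    (hζ : IsPrimitiveRoot ζ N) (hv : v ^ N = algebraMap K Ω (u : 𝓞 K)) (τ : Ω ≃ₐ[K] Ω) {a : ℕ}
    (ha : τ ζ = ζ ^ a) : ∃ y : K, y ^ N * (u : 𝓞 K) = ((u : 𝓞 K) : K) ^ a := by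
  have hG : IsGalois K Ω := IsGalois.tower_top_of_isGalois ℚ K Ω
  have hFD : FiniteDimensional K Ω := Module.Finite.of_restrictScalars_finite ℚ K Ω
  have : NeZero N := ⟨hN.ne'⟩
  have hu0 : algebraMap K Ω (u : 𝓞 K) ≠ 0 := by
    rw [Ne, map_eq_zero]
    have := u.ne_zero
    exact fun h => this (RingOfIntegers.ext (by simpa using h))
  have hv0 : v ≠ 0 := by
    intro h
    rw [h, zero_pow hN.ne'] at hv
    exact hu0 hv.symm
  have hfix : ∀ σ : Ω ≃ₐ[K] Ω, σ (v ^ a / τ v) = v ^ a / τ v := by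
    intro σ
    have hσζ : ∃ b : ℕ, σ ζ = ζ ^ b := by
      obtain ⟨b, -, hb⟩ := hζ.eq_pow_of_pow_eq_one (ξ := σ ζ) (by
        rw [← map_pow, hζ.pow_eq_one, map_one])
      exact ⟨b, hb.symm⟩
    obtain ⟨b, hb⟩ := hσζ
    have hcomm : σ (τ v) = τ (σ v) := by
      have h1 := frob_fix hN hu hζ hv (σ := (((τ * σ)⁻¹ * (σ * τ) : Ω ≃ₐ[K] Ω).restrictScalars ℚ))
        (fun x => AlgEquiv.commutes _ x) (by
          change ((τ * σ)⁻¹ * (σ * τ) : Ω ≃ₐ[K] Ω) ζ = ζ
          rw [AlgEquiv.mul_apply, AlgEquiv.mul_apply, ha, map_pow, hb, ← pow_mul, mul_comm b a,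
            pow_mul, ← ha, ← map_pow, ← hb]
          change ((τ * σ)⁻¹ * (τ * σ) : Ω ≃ₐ[K] Ω) ζ = ζ
          rw [inv_mul_cancel]
          rfl)
      have h2 : ((τ * σ)⁻¹ * (σ * τ) : Ω ≃ₐ[K] Ω) v = v := h1
      have h3 : (τ * σ : Ω ≃ₐ[K] Ω) (((τ * σ)⁻¹ * (σ * τ) : Ω ≃ₐ[K] Ω) v) = (τ * σ) v := by rw [h2]
      rw [← AlgEquiv.mul_apply, mul_inv_cancel_left] at h3
      exact h3
    have hηN : (σ v / v) ^ N = 1 := by
      rw [div_pow, ← map_pow, hv, AlgEquiv.commutes, div_self hu0]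
    obtain ⟨s, -, hs⟩ := hζ.eq_pow_of_pow_eq_one hηN
    have hσv : σ v = ζ ^ s * v := by rw [hs, div_mul_cancel₀ _ hv0]
    have hτη : τ (ζ ^ s) = (ζ ^ s) ^ a := by
      rw [map_pow, ha, ← pow_mul, ← pow_mul, mul_comm]
    have hζs : (ζ ^ s) ^ a ≠ 0 := pow_ne_zero _ (pow_ne_zero _ (hζ.ne_zero hN.ne'))
    rw [map_div₀, map_pow, hcomm, hσv, map_mul, hτη, mul_pow]
    rw [mul_div_mul_left _ _ hζs]
  obtain ⟨y, hy⟩ := (IsGalois.mem_range_algebraMap_iff_fixed (F := K) (v ^ a / τ v)).2 hfix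
  refine ⟨y, ?_⟩
  apply (algebraMap K Ω).injective
  rw [map_mul, map_pow, map_pow, hy, div_pow, ← pow_mul, mul_comm a N, pow_mul, hv, ← map_pow τ,
    hv, AlgEquiv.commutes, div_mul_cancel₀ _ hu0]

/-- The Grunwald-Wang type statement (Schinzel's lemma). -/
theorem pow_of_loc {N : ℕ} (hN : 0 < N) {u : (𝓞 K)ˣ} (hu : Loc K N u) {ζ v : Ω}
    (hζ : IsPrimitiveRoot ζ N) (hv : v ^ N = algebraMap K Ω (u : 𝓞 K)) :
    ∃ x : (𝓞 K)ˣ, u ^ (Units.torsionOrder K) = x ^ N := by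
  have hG : IsGalois K Ω := IsGalois.tower_top_of_isGalois ℚ K Ω
  have hFD : FiniteDimensional K Ω := Module.Finite.of_restrictScalars_finite ℚ K Ω
  have : NeZero N := ⟨hN.ne'⟩
  let U : Kˣ := Units.map (algebraMap (𝓞 K) K).toMonoidHom u
  let I : AddSubgroup ℤ :=
    { carrier := {n : ℤ | ∃ y : Kˣ, y ^ N = U ^ n}
      zero_mem' := ⟨1, by simp⟩
      add_mem' := by
        rintro m n ⟨y, hy⟩ ⟨z, hz⟩
        exact ⟨y * z, by rw [mul_pow, hy, hz, zpow_add]⟩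
      neg_mem' := by
        rintro m ⟨y, hy⟩
        exact ⟨y⁻¹, by rw [inv_pow, hy, zpow_neg]⟩ }
  obtain ⟨d, hd⟩ := Int.subgroup_cyclic I
  have hmem : ∀ n : ℤ, n ∈ I ↔ d ∣ n := by
    intro n
    rw [hd, AddSubgroup.mem_closure_singleton]
    constructor
    · rintro ⟨k, rfl⟩
      rw [smul_eq_mul]
      exact Dvd.intro_left k rfl
    · rintro ⟨k, rfl⟩
      exact ⟨k, by rw [smul_eq_mul, mul_comm]⟩
  have hNI : (N : ℤ) ∈ I := ⟨U, by rw [zpow_natCast]⟩
  have hdN : d.natAbs ∣ N := by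
    have := (hmem N).1 hNI
    rwa [← Int.natAbs_dvd_natAbs, Int.natAbs_natCast] at this
  obtain ⟨e, he⟩ := hdN
  have hd0 : 0 < d.natAbs := Nat.pos_of_ne_zero fun h => by
    rw [h, zero_mul] at he
    omega
  have he0 : 0 < e := Nat.pos_of_ne_zero fun h => by
    rw [h, mul_zero] at he
    omega
  -- the root of unity in `K`
  have hfix : ∀ τ : Ω ≃ₐ[K] Ω, τ (ζ ^ e) = ζ ^ e := by
    intro τ
    obtain ⟨a, -, ha⟩ := hζ.eq_pow_of_pow_eq_one (ξ := τ ζ) (by
      rw [← map_pow, hζ.pow_eq_one, map_one])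
    obtain ⟨y, hy⟩ := exists_y hN hu hζ hv τ ha.symm
    have hu0 : ((u : 𝓞 K) : K) ≠ 0 := by
      have := u.ne_zero
      exact fun h => this (RingOfIntegers.ext (by simpa using h))
    have hy0 : y ≠ 0 := by
      intro h
      rw [h, zero_pow hN.ne', zero_mul] at hy
      exact pow_ne_zero a hu0 hy.symm
    have haI : (a : ℤ) - 1 ∈ I := by
      refine ⟨Units.mk0 y hy0, ?_⟩
      rw [zpow_sub, zpow_natCast, zpow_one, eq_mul_inv_iff_mul_eq]
      apply Units.ext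
      exact hy
    have h1 := (hmem _).1 haI
    obtain ⟨k, hk⟩ := (Int.natAbs_dvd.2 h1)
    have h2 : (ζ ^ e) ^ a = ζ ^ e := by
      have h3 : ((ζ ^ e : Ω)) ^ ((a : ℤ)) = ζ ^ e := by
        have h4 : (a : ℤ) = 1 + d.natAbs * k := by linarith
        have h5 : (ζ ^ e : Ω) ≠ 0 := pow_ne_zero _ (hζ.ne_zero hN.ne')
        rw [h4, zpow_add₀ h5, zpow_one, zpow_mul, zpow_natCast, ← pow_mul, mul_comm e, ← he,
          hζ.pow_eq_one, one_zpow, mul_one]
      rwa [zpow_natCast] at h3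
    rw [map_pow, ← ha, ← pow_mul, mul_comm a e, pow_mul, h2]
  obtain ⟨ω, hω⟩ := (IsGalois.mem_range_algebraMap_iff_fixed (F := K) (ζ ^ e)).2 hfix
  have hωp : IsPrimitiveRoot ω d.natAbs := by
    have h1 : IsPrimitiveRoot (ζ ^ e) d.natAbs := hζ.pow hN (by rw [he, mul_comm])
    rw [← hω] at h1
    exact h1.of_map_of_injective (algebraMap K Ω).injective
  have : NeZero d.natAbs := ⟨hd0.ne'⟩
  have hdW : d.natAbs ∣ Units.torsionOrder K := Units.dvd_torsionOrder_of_isPrimitiveRoot hωp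
  have hWI : ((Units.torsionOrder K : ℕ) : ℤ) ∈ I := by
    rw [hmem]
    exact Int.natAbs_dvd.1 (by exact_mod_cast hdW)
  obtain ⟨y, hy⟩ := hWI
  rw [zpow_natCast] at hy
  have hy1 : IsIntegral ℤ (y : K) := by
    refine IsIntegral.of_pow hN ?_
    have : (y : K) ^ N = (((u ^ Units.torsionOrder K : (𝓞 K)ˣ) : 𝓞 K) : K) := by
      have := congrArg (fun z : Kˣ => (z : K)) hy
      simpa [U] using this
    rw [this]
    exact RingOfIntegers.isIntegral_coe _
  have hy2 : IsIntegral ℤ ((y⁻¹ : Kˣ) : K) := by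
    refine IsIntegral.of_pow hN ?_
    have : ((y⁻¹ : Kˣ) : K) ^ N = ((((u ^ Units.torsionOrder K)⁻¹ : (𝓞 K)ˣ) : 𝓞 K) : K) := by
      have h1 : (y⁻¹) ^ N = (U ^ Units.torsionOrder K)⁻¹ := by rw [inv_pow, hy]
      have h2 : (U ^ Units.torsionOrder K)⁻¹ =
          Units.map (algebraMap (𝓞 K) K).toMonoidHom ((u ^ Units.torsionOrder K)⁻¹) := by
        rw [map_inv, map_pow]
      rw [h2] at h1
      exact congrArg (fun z : Kˣ => (z : K)) h1
    rw [this]
    exact RingOfIntegers.isIntegral_coe _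
  let x : (𝓞 K)ˣ :=
    { val := ⟨(y : K), hy1⟩
      inv := ⟨((y⁻¹ : Kˣ) : K), hy2⟩
      val_inv := by
        apply RingOfIntegers.ext
        change (y : K) * ((y⁻¹ : Kˣ) : K) = 1
        exact y.mul_inv
      inv_val := by
        apply RingOfIntegers.ext
        change ((y⁻¹ : Kˣ) : K) * (y : K) = 1
        exact y.inv_mul }
  refine ⟨x, ?_⟩
  apply Units.ext
  apply RingOfIntegers.ext
  have := congrArg (fun z : Kˣ => (z : K)) hy
  simp only [Units.val_pow_eq_pow_val] at this ⊢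
  change _ = (y : K) ^ N
  rw [this]
  simp [U]

end

/-- The statement without the auxiliary field. -/
theorem pow_of_loc' {K : Type} [Field K] [NumberField K] {N : ℕ} (hN : 0 < N) {u : (𝓞 K)ˣ}
    (hu : Loc K N u) : ∃ x : (𝓞 K)ˣ, u ^ (Units.torsionOrder K) = x ^ N := by
  have : NeZero N := ⟨hN.ne'⟩
  let P : Polynomial K := (Polynomial.X ^ N - Polynomial.C ((u : 𝓞 K) : K)) *
    Polynomial.cyclotomic N K
  let L := P.SplittingField
  have : FiniteDimensional ℚ L := Module.Finite.trans K L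
  have : NumberField L := {}
  have hcl : IsAlgClosure ℚ (AlgebraicClosure L) :=
    IsAlgClosure.ofAlgebraic ℚ L (AlgebraicClosure L)
  have hnorm : Normal ℚ (AlgebraicClosure L) := IsAlgClosure.normal ℚ (AlgebraicClosure L)
  have hgal : IsGalois ℚ (AlgebraicClosure L) := {}
  let E := IntermediateField.normalClosure ℚ L (AlgebraicClosure L)
  have : FiniteDimensional ℚ E := inferInstance
  have : NumberField E := {}
  have : IsGalois ℚ E := IsGalois.normalClosure ℚ L (AlgebraicClosure L)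
  let _ : Algebra K E := ((algebraMap L E).comp (algebraMap K L)).toAlgebra
  have hP0 : P ≠ 0 := by
    refine mul_ne_zero ?_ (Polynomial.cyclotomic_ne_zero N K)
    exact Polynomial.X_pow_sub_C_ne_zero hN _
  have hsp : (P.map (algebraMap K L)).Splits := Polynomial.SplittingField.splits P
  obtain ⟨v, hv⟩ : ∃ v : L, v ^ N = algebraMap K L (u : 𝓞 K) := by
    have h1 : ((Polynomial.X ^ N - Polynomial.C ((u : 𝓞 K) : K)).map (algebraMap K L)).Splits := by
      refine hsp.of_dvd (by simpa [Polynomial.map_eq_zero] using hP0) ?_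
      exact Polynomial.map_dvd _ (Dvd.intro _ rfl)
    have h2 : ((Polynomial.X ^ N - Polynomial.C ((u : 𝓞 K) : K)).map (algebraMap K L)).degree ≠ 0 := by
      rw [Polynomial.degree_map, Polynomial.degree_X_pow_sub_C hN]
      exact_mod_cast hN.ne'
    obtain ⟨v, hv⟩ := h1.exists_eval_eq_zero h2
    refine ⟨v, ?_⟩
    simpa [sub_eq_zero] using hv
  obtain ⟨ζ, hζ⟩ : ∃ ζ : L, IsPrimitiveRoot ζ N := by
    have h1 : ((Polynomial.cyclotomic N K).map (algebraMap K L)).Splits := by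
      refine hsp.of_dvd (by simpa [Polynomial.map_eq_zero] using hP0) ?_
      exact Polynomial.map_dvd _ (Dvd.intro_left _ rfl)
    have h2 : ((Polynomial.cyclotomic N K).map (algebraMap K L)).degree ≠ 0 := by
      rw [Polynomial.degree_map, Polynomial.degree_cyclotomic]
      have := Nat.totient_pos.2 hN
      exact_mod_cast this.ne'
    obtain ⟨ζ, hζ⟩ := h1.exists_eval_eq_zero h2
    refine ⟨ζ, ?_⟩
    rw [Polynomial.map_cyclotomic] at hζ
    exact (Polynomial.isRoot_cyclotomic_iff (n := N) (R := L)).1 hζ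
  exact pow_of_loc (Ω := E) hN hu (ζ := algebraMap L E ζ) (v := algebraMap L E v)
    (hζ.map_of_injective (algebraMap L E).injective) (by
      rw [← map_pow, hv]
      rfl)

end Pool.Agent.V8H98.CHV
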