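import Pool.Agent.V8H98.CHV.Rep

/-!
# Neat representations: virtually solvable implies unipotent commutators
-/

set_option autoImplicit false

namespace Pool.Agent.V8H98.CHV

section one

variable {F : Type} [Field F] [CharZero F]

lemma not_int_third {F : Type} [Field F] [CharZero F] {p : ℕ} (h : IsIntegral ℤ ((p : F) / 3)) :
    3 ∣ p := by
  have h1 : ((p : F) / 3) = algebraMap ℚ F ((p : ℚ) / 3) := by
    rw [map_div₀, map_natCast, map_ofNat]
  rw [h1, isIntegral_algebraMap_iff (algebraMap ℚ F).injective] at h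
  obtain ⟨y, hy⟩ := IsIntegrallyClosed.isIntegral_iff.1 h
  have h2 : (y : ℚ) = (p : ℚ) / 3 := hy
  have h3 : (3 : ℚ) * y = p := by rw [h2]; ring
  have h4 : (3 : ℤ) * y = p := by exact_mod_cast h3
  have h5 : (3 : ℤ) ∣ (p : ℤ) := ⟨y, h4.symm⟩
  exact_mod_cast h5

lemma int_of_third {ζ : F} (h : IsIntegral ℤ ((ζ - 1) / 3)) : IsIntegral ℤ ζ := by
  have h1 : ζ = 3 * ((ζ - 1) / 3) + 1 := by field_simp; ring
  rw [h1]
  refine ((IsIntegral.mul ?_ h).add isIntegral_one)
  have h3 : IsIntegral ℤ (algebraMap ℤ F 3) := isIntegral_algebraMap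
  rwa [map_ofNat] at h3

lemma third_pow {ζ : F} (h : IsIntegral ℤ ((ζ - 1) / 3)) (i : ℕ) :
    IsIntegral ℤ ((ζ ^ i - 1) / 3) := by
  induction i with
  | zero =>
    rw [pow_zero, sub_self, zero_div]
    exact isIntegral_zero
  | succ i ih =>
    have h1 : (ζ ^ (i + 1) - 1) / 3 = ζ * ((ζ ^ i - 1) / 3) + (ζ - 1) / 3 := by ring
    rw [h1]
    exact ((int_of_third h).mul ih).add h

/-- roots of unity congruent to `1` modulo `3` are trivial -/
lemma root_one {ζ : F} (h : IsIntegral ℤ ((ζ - 1) / 3)) {k : ℕ} (hk : 0 < k) (hζ : ζ ^ k = 1) :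
    ζ = 1 := by
  by_contra hne
  have hfin : IsOfFinOrder ζ := isOfFinOrder_iff_pow_eq_one.2 ⟨k, hk, hζ⟩
  have hn0 : orderOf ζ ≠ 0 := hfin.orderOf_pos.ne'
  have hn1 : orderOf ζ ≠ 1 := fun h => hne (orderOf_eq_one_iff.1 h)
  obtain ⟨p, hp, hpd⟩ := Nat.exists_prime_and_dvd hn1
  obtain ⟨e, he⟩ := hpd
  set ξ := ζ ^ e with hξ
  have hξp : ξ ^ p = 1 := by
    rw [hξ, ← pow_mul, mul_comm, ← he, pow_orderOf_eq_one]
  have hξ1 : ξ ≠ 1 := by
    intro h1
    have h2 := orderOf_dvd_of_pow_eq_one h1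
    have he0 : 0 < e := by
      rcases Nat.eq_zero_or_pos e with h3 | h3
      · rw [h3, mul_zero] at he; exact absurd he hn0
      · exact h3
    have h3 := Nat.le_of_dvd he0 h2
    have h4 : e < orderOf ζ := by
      rw [he]
      exact lt_mul_of_one_lt_left he0 hp.one_lt
    omega
  have hint := third_pow h e
  rw [← hξ] at hint
  have hsum : ∑ i ∈ Finset.range p, ξ ^ i = 0 := by
    have h1 := mul_geom_sum ξ p
    rw [hξp, sub_self] at h1
    rcases mul_eq_zero.1 h1 with h2 | h2
    · exact absurd (sub_eq_zero.1 h2) hξ1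
    · exact h2
  have h2 : IsIntegral ℤ (∑ i ∈ Finset.range p, (ξ ^ i - 1) / 3) :=
    IsIntegral.sum _ fun i _ => third_pow hint i
  have h3 : ∑ i ∈ Finset.range p, (ξ ^ i - 1) / 3 = - ((p : F) / 3) := by
    rw [← Finset.sum_div, Finset.sum_sub_distrib, hsum]
    simp
    ring
  rw [h3] at h2
  have h4 : IsIntegral ℤ ((p : F) / 3) := by
    have := h2.neg
    rwa [neg_neg] at this
  have h5 : p = 3 := ((Nat.prime_dvd_prime_iff_eq Nat.prime_three hp).1 (not_int_third h4)).symm
  subst h5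
  have h6 : ξ = 1 + 3 * ((ξ - 1) / 3) := by ring
  set t := (ξ - 1) / 3 with ht
  have h7 : 1 + ξ + ξ ^ 2 = 0 := by
    have := hsum
    simp [Finset.sum_range_succ] at this
    exact this
  rw [h6] at h7
  have h8 : ((1 : ℕ) : F) / 3 = -(t + t ^ 2) := by
    have h9 : (9 : F) * (((1 : ℕ) : F) / 3 + (t + t ^ 2)) = 0 := by
      rw [← h7]
      push_cast
      ring
    rcases mul_eq_zero.1 h9 with h10 | h10
    · norm_num at h10
    · exact eq_neg_of_add_eq_zero_left h10
  have h9 : IsIntegral ℤ (((1 : ℕ) : F) / 3) := by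
    rw [h8]
    exact (hint.add (hint.pow 2)).neg
  have h10 := not_int_third h9
  omega

end one

section two

variable {F : Type} [Field F] {B U : Type} [Group B] [AddCommGroup U] [Module F U]

/-- All eigenvalues are congruent to `1` modulo `3`. -/
def Neat (σ : B →* Module.End F U) : Prop :=
  ∀ b, ∀ y : F, (∃ v, v ≠ 0 ∧ σ b v = y • v) → IsIntegral ℤ ((y - 1) / 3) ∧ IsIntegral ℤ y⁻¹

lemma rep_inj (σ : B →* Module.End F U) (b : B) {v : U} (h : σ b v = 0) : v = 0 := by
  have h1 : σ b⁻¹ (σ b v) = v := by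
    rw [← Module.End.mul_apply, ← map_mul, inv_mul_cancel, map_one, Module.End.one_apply]
  rw [← h1, h, map_zero]

lemma rep_pow_inj (σ : B →* Module.End F U) (b : B) (j : ℕ) {v : U} (h : (σ b ^ j) v = 0) :
    v = 0 := by
  rw [← map_pow] at h
  exact rep_inj σ _ h

lemma eig_ne (σ : B →* Module.End F U) {b : B} {y : F} {v : U} (hv : v ≠ 0)
    (h : σ b v = y • v) : y ≠ 0 := by
  rintro rfl
  rw [zero_smul] at h
  exact hv (rep_inj σ b h)

lemma neat_root [CharZero F] {σ : B →* Module.End F U} (hσ : Neat σ) {b c : B} {y z ζ : F} {v w : U}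
    (hv : v ≠ 0) (hw : w ≠ 0) (h1 : σ b v = y • v) (h2 : σ c w = z • w) (hyz : y = ζ * z)
    {k : ℕ} (hk : 0 < k) (hζ : ζ ^ k = 1) : ζ = 1 := by
  have hz := eig_ne σ hw h2
  have h3 := hσ b y ⟨v, hv, h1⟩
  have h4 := hσ c z ⟨w, hw, h2⟩
  apply root_one _ hk hζ
  have h5 : (ζ - 1) / 3 = ((y - 1) / 3 - (z - 1) / 3) * z⁻¹ := by
    rw [hyz]
    field_simp
    ring
  rw [h5]
  exact (h3.1.sub h4.1).mul h4.2

/-- a common eigenvector of a commuting family -/
lemma common_eig [IsAlgClosed F] [FiniteDimensional F U] [Nontrivial U] {ι : Type}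
    (f : ι → Module.End F U) (hf : ∀ i j, f i * f j = f j * f i) :
    ∃ (χ : ι → F) (v : U), v ≠ 0 ∧ ∀ i, f i v = χ i • v := by
  obtain ⟨M, ⟨hM1, hM2⟩, hM3⟩ := (wellFounded_lt (α := Submodule F U)).has_min
    {M | M ≠ ⊥ ∧ ∀ i, ∀ w ∈ M, f i w ∈ M} ⟨⊤, top_ne_bot, fun _ _ _ => trivial⟩
  have hnt : Nontrivial M := Submodule.nontrivial_iff_ne_bot.2 hM1
  have h1 : ∀ i, ∃ μ : F, ∀ w ∈ M, f i w = μ • w := by
    intro i
    obtain ⟨μ, hμ⟩ := Module.End.exists_eigenvalue ((f i).restrict (hM2 i))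
    obtain ⟨w, hw⟩ := hμ.exists_hasEigenvector
    refine ⟨μ, ?_⟩
    let M' : Submodule F U := M ⊓ LinearMap.ker (f i - μ • 1)
    have hw2 : f i (w : U) = μ • (w : U) := congrArg Subtype.val hw.apply_eq_smul
    have hM'1 : M' ≠ ⊥ := by
      intro h
      have h2 : (w : U) ∈ M' := ⟨w.2, by
        rw [SetLike.mem_coe, LinearMap.mem_ker, LinearMap.sub_apply, hw2]
        simp⟩
      rw [h] at h2
      exact hw.2 (Subtype.ext h2)
    have hM'2 : ∀ j, ∀ w ∈ M', f j w ∈ M' := by
      rintro j w ⟨hw1, hw2⟩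
      refine ⟨hM2 j w hw1, ?_⟩
      rw [SetLike.mem_coe, LinearMap.mem_ker, LinearMap.sub_apply, LinearMap.smul_apply,
        Module.End.one_apply, sub_eq_zero] at hw2 ⊢
      have h3 := LinearMap.congr_fun (hf i j) w
      rw [Module.End.mul_apply, Module.End.mul_apply, hw2, map_smul] at h3
      exact h3
    have h3 : M' = M := by
      by_contra h4
      exact hM3 M' ⟨hM'1, hM'2⟩ (lt_of_le_of_ne inf_le_left h4)
    intro u hu
    rw [← h3] at hu
    have h4 := hu.2
    rw [SetLike.mem_coe, LinearMap.mem_ker, LinearMap.sub_apply, LinearMap.smul_apply,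
        Module.End.one_apply, sub_eq_zero] at h4
    exact h4
  choose χ hχ using h1
  obtain ⟨v, hv⟩ := exists_ne (0 : M)
  exact ⟨χ, v, fun h => hv (Subtype.ext h), fun i => hχ i v v.2⟩

/-- simultaneous eigenspaces are independent -/
lemma indep_eig {ι : Type} (f : ι → Module.End F U) (hf : ∀ i j, f i * f j = f j * f i) :
    iSupIndep fun χ : ι → F => ⨅ i, (f i).eigenspace (χ i) := by
  have h1 := Module.End.independent_iInf_maxGenEigenspace_of_forall_mapsTo f (fun i j φ =>
    Module.End.mapsTo_maxGenEigenspace_of_comm (hf j i) φ)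
  refine h1.mono fun χ => ?_
  apply iInf_mono
  intro i
  exact (Module.End.genEigenspace (f i) (χ i)).monotone le_top

lemma exists_omega [IsAlgClosed F] [CharZero F] {k : ℕ} (hk : 2 ≤ k) :
    ∃ ω : F, ω ≠ 1 ∧ ω ^ k = 1 := by
  have hdeg : (∑ i ∈ Finset.range k, (Polynomial.X : Polynomial F) ^ i).degree ≠ 0 := by
    obtain ⟨n, rfl⟩ : ∃ n, k = n + 2 := ⟨k - 2, by omega⟩
    rw [Finset.sum_range_succ, add_comm]
    have h1 : (∑ i ∈ Finset.range (n + 1), (Polynomial.X : Polynomial F) ^ i).degree <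
        ((Polynomial.X : Polynomial F) ^ (n + 1)).degree := by
      rw [Polynomial.degree_X_pow]
      refine lt_of_le_of_lt (Polynomial.degree_sum_le _ _) ?_
      rw [Finset.sup_lt_iff (WithBot.bot_lt_coe _)]
      intro i hi
      rw [Polynomial.degree_X_pow]
      exact_mod_cast Finset.mem_range.1 hi
    rw [Polynomial.degree_add_eq_left_of_degree_lt h1, Polynomial.degree_X_pow]
    exact_mod_cast Nat.succ_ne_zero n
  obtain ⟨ω, hω⟩ := IsAlgClosed.exists_root _ hdeg
  have h1 : ∑ i ∈ Finset.range k, ω ^ i = 0 := by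
    have h2 := hω
    rw [Polynomial.IsRoot.def, Polynomial.eval_finsetSum] at h2
    simpa using h2
  refine ⟨ω, ?_, ?_⟩
  · rintro rfl
    simp at h1
    omega
  · have h2 := mul_geom_sum ω k
    rw [h1, mul_zero] at h2
    exact sub_eq_zero.1 h2.symm

/-- If `g` permutes `k` vectors of independent weight spaces cyclically up to a scalar, it has the
eigenvalues `z` with `z ^ k = λ`. -/
lemma cyc_eig (g : Module.End F U) {k : ℕ} (hk : 0 < k) (v : U)
    (hli : LinearIndependent F (fun j : Fin k => (g ^ (j : ℕ)) v)) {l z : F} (hz0 : z ≠ 0)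
    (hl : (g ^ k) v = l • v) (hz : z ^ k = l) : ∃ u, u ≠ 0 ∧ g u = z • u := by
  refine ⟨∑ j ∈ Finset.range k, (z⁻¹ ^ j) • (g ^ j) v, ?_, ?_⟩
  · intro h
    rw [Finset.sum_range (fun j => (z⁻¹ ^ j) • (g ^ j) v)] at h
    have h1 := Fintype.linearIndependent_iff.1 hli (fun j : Fin k => z⁻¹ ^ (j : ℕ)) h ⟨0, hk⟩
    simp at h1
  · have h1 : ∀ j : ℕ, g ((z⁻¹ ^ j) • (g ^ j) v) = z • ((z⁻¹ ^ (j + 1)) • (g ^ (j + 1)) v) := by
      intro j
      rw [map_smul, smul_smul, pow_succ' g, Module.End.mul_apply, pow_succ']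
      congr 1
      field_simp
    rw [map_sum, Finset.smul_sum, Finset.sum_congr rfl fun j _ => h1 j, ← Finset.smul_sum,
      ← Finset.smul_sum]
    congr 1
    have h2 := Finset.sum_range_succ (fun j => (z⁻¹ ^ j) • (g ^ j) v) k
    have h3 := Finset.sum_range_succ' (fun j => (z⁻¹ ^ j) • (g ^ j) v) k
    rw [h2] at h3
    have h4 : (z⁻¹ ^ k) • (g ^ k) v = (z⁻¹ ^ 0) • (g ^ 0) v := by
      rw [hl, smul_smul, ← hz, inv_pow, inv_mul_cancel₀ (pow_ne_zero _ hz0)]
      simp
    rw [h4] at h3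
    exact (add_right_cancel h3).symm

end two

set_option linter.unusedSectionVars false

section three

variable {F : Type} [Field F] [IsAlgClosed F] [CharZero F] {B U : Type} [Group B] [AddCommGroup U]
  [Module F U] [FiniteDimensional F U]

/-- A neat representation fixes the weights of a normal subgroup which acts by commuting operators. -/
lemma weight_fixed [Nontrivial U] {σ : B →* Module.End F U} (hσ : Neat σ) (D : Subgroup B)
    [hD : D.Normal] (hcomm : ∀ b c : D, σ b * σ c = σ c * σ b) (χ : D → F) (v : U) (hv : v ≠ 0)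
    (hχ : ∀ d : D, σ d v = χ d • v) (g : B) (π : D → D) (hπ : ∀ d, (π d : B) = g⁻¹ * d * g) :
    ∀ d, χ (π d) = χ d := by
  classical
  have hmem : ∀ (χ' : D → F) (w : U), (∀ d : D, σ d w = χ' d • w) ↔
      w ∈ ⨅ d : D, (σ d).eigenspace (χ' d) := by
    intro χ' w
    rw [Submodule.mem_iInf]
    simp only [Module.End.mem_eigenspace_iff]
  have hsh : ∀ (χ' : D → F) (w : U), (∀ d : D, σ d w = χ' d • w) →
      ∀ d : D, σ d (σ g w) = χ' (π d) • σ g w := by
    intro χ' w hw d
    rw [← map_smul, ← hw (π d), ← Module.End.mul_apply, ← Module.End.mul_apply, ← map_mul,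
      ← map_mul, hπ]
    congr 2
    group
  have hiter : ∀ (j : ℕ) (w : U), (∀ d : D, σ d w = χ d • w) →
      ∀ d : D, σ d ((σ g ^ j) w) = χ (π^[j] d) • (σ g ^ j) w := by
    intro j w hw
    induction j with
    | zero => intro d; simpa using hw d
    | succ j ih =>
      intro d
      have h1 := hsh (fun d => χ (π^[j] d)) _ ih d
      rw [pow_succ' (σ g), Module.End.mul_apply, h1, Function.iterate_succ_apply]
  have hbij : Function.Bijective π := by
    constructor
    · intro a b hab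
      have h1 := congrArg (fun x : D => (x : B)) hab
      simp only [hπ] at h1
      apply Subtype.ext
      have h2 := mul_left_cancel (mul_right_cancel h1)
      exact h2
    · intro d
      refine ⟨⟨g * d * g⁻¹, hD.conj_mem _ d.2 g⟩, ?_⟩
      apply Subtype.ext
      rw [hπ]
      show g⁻¹ * (g * (d : B) * g⁻¹) * g = d
      group
  have hind := indep_eig (fun d : D => σ d) hcomm
  have hfin : {χ' : D → F | (⨅ d : D, (σ d).eigenspace (χ' d)) ≠ ⊥}.Finite :=
    WellFoundedGT.finite_ne_bot_of_iSupIndep hind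
  -- the weights `χ ∘ π^j`
  have hne : ∀ j : ℕ, (⨅ d : D, (σ d).eigenspace ((fun d => χ (π^[j] d)) d)) ≠ ⊥ := by
    intro j h
    have h1 : (σ g ^ j) v ∈ ⨅ d : D, (σ d).eigenspace ((fun d => χ (π^[j] d)) d) :=
      (hmem (fun d => χ (π^[j] d)) _).1 (hiter j v hχ)
    rw [h, Submodule.mem_bot] at h1
    exact hv (rep_pow_inj σ g j h1)
  have hsub : ∀ i j : ℕ, i < j → (∀ d, χ (π^[i] d) = χ (π^[j] d)) →
      ∀ d, χ (π^[j - i] d) = χ d := by
    intro i j hij h d
    obtain ⟨e, he⟩ := (hbij.iterate i).2 d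
    rw [← he, ← Function.iterate_add_apply, Nat.sub_add_cancel hij.le, h]
  have hex : ∃ k : ℕ, 0 < k ∧ ∀ d, χ (π^[k] d) = χ d := by
    have := hfin.to_subtype
    obtain ⟨i, j, hij, h⟩ := Finite.exists_ne_map_eq_of_infinite
      (fun j : ℕ => (⟨fun d => χ (π^[j] d), hne j⟩ :
        {χ' : D → F | (⨅ d : D, (σ d).eigenspace (χ' d)) ≠ ⊥}))
    have h1 : ∀ d, χ (π^[i] d) = χ (π^[j] d) := fun d =>
      congrFun (congrArg Subtype.val h) d
    rcases lt_or_gt_of_ne hij with h2 | h2
    · exact ⟨j - i, by omega, hsub i j h2 h1⟩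
    · exact ⟨i - j, by omega, hsub j i h2 fun d => (h1 d).symm⟩
  obtain ⟨hk0, hk⟩ := Nat.find_spec hex
  set k := Nat.find hex with hkdef
  by_cases hk1 : k = 1
  · intro d
    have := hk d
    rw [hk1] at this
    exact this
  exfalso
  have hk2 : 2 ≤ k := by omega
  have hinj : Function.Injective (fun (j : Fin k) (d : D) => χ (π^[(j : ℕ)] d)) := by
    intro i j hij
    by_contra hne
    have hne' : (i : ℕ) ≠ j := fun h => hne (Fin.ext h)
    have h1 : ∀ d, χ (π^[(i : ℕ)] d) = χ (π^[(j : ℕ)] d) := fun d => congrFun hij d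
    rcases lt_or_gt_of_ne hne' with h2 | h2
    · have h3 := Nat.find_min hex (m := (j : ℕ) - i) (by omega)
      exact h3 ⟨by omega, hsub _ _ h2 h1⟩
    · have h3 := Nat.find_min hex (m := (i : ℕ) - j) (by omega)
      exact h3 ⟨by omega, hsub _ _ h2 fun d => (h1 d).symm⟩
  -- an eigenvector of `g ^ k` in the weight space
  let E : Submodule F U := ⨅ d : D, (σ d).eigenspace (χ d)
  have hE : ∀ w ∈ E, (σ g ^ k) w ∈ E := by
    intro w hw
    have h1 := hiter k w ((hmem χ w).2 hw)
    apply (hmem χ _).1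
    intro d
    rw [h1 d, hk d]
  have hEnt : Nontrivial E := by
    rw [Submodule.nontrivial_iff_ne_bot]
    intro h
    have h1 : v ∈ E := (hmem χ v).1 hχ
    rw [h] at h1
    exact hv h1
  obtain ⟨l, hl⟩ := Module.End.exists_eigenvalue ((σ g ^ k).restrict hE)
  obtain ⟨w, hw⟩ := hl.exists_hasEigenvector
  have hw1 : (σ g ^ k) (w : U) = l • (w : U) := congrArg Subtype.val hw.apply_eq_smul
  have hw0 : (w : U) ≠ 0 := fun h => hw.2 (Subtype.ext h)
  have hl0 : l ≠ 0 := by
    rintro rfl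
    rw [zero_smul] at hw1
    exact hw0 (rep_pow_inj σ g k hw1)
  have hwχ := (hmem χ (w : U)).2 w.2
  have hli : LinearIndependent F (fun j : Fin k => (σ g ^ (j : ℕ)) (w : U)) := by
    refine iSupIndep.linearIndependent _ (hind.comp hinj) (fun j => ?_) (fun j h => ?_)
    · exact (hmem (fun d => χ (π^[(j : ℕ)] d)) _).1 (hiter j w hwχ)
    · exact hw0 (rep_pow_inj σ g j h)
  obtain ⟨y, hy⟩ := IsAlgClosed.exists_pow_nat_eq l hk0
  obtain ⟨ω, hω1, hωk⟩ := exists_omega (F := F) hk2
  have hy0 : y ≠ 0 := by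
    rintro rfl
    rw [zero_pow (by omega)] at hy
    exact hl0 hy.symm
  have hω0 : ω ≠ 0 := by
    rintro rfl
    rw [zero_pow (by omega)] at hωk
    exact zero_ne_one hωk
  obtain ⟨u1, hu1, hu1'⟩ := cyc_eig (σ g) hk0 (w : U) hli hy0 hw1 hy
  obtain ⟨u2, hu2, hu2'⟩ := cyc_eig (σ g) hk0 (w : U) hli (mul_ne_zero hω0 hy0) hw1
    (by rw [mul_pow, hωk, one_mul, hy])
  exact hω1 (neat_root hσ hu2 hu1 hu2' hu1' rfl hk0 hωk)

lemma det_ne (σ : B →* Module.End F U) (b : B) : LinearMap.det (σ b) ≠ 0 := by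
  intro h
  have h1 : LinearMap.det (σ b) * LinearMap.det (σ b⁻¹) = 1 := by
    rw [← map_mul, ← map_mul, mul_inv_cancel, map_one, map_one]
  rw [h, zero_mul] at h1
  exact zero_ne_one h1

lemma neat_comm [Nontrivial U] {σ : B →* Module.End F U} (hσ : Neat σ) (b c : B) (z : F)
    (hz : σ (b * c * b⁻¹ * c⁻¹) = z • 1) : σ b * σ c = σ c * σ b := by
  have h1 : σ b * σ c = z • (σ c * σ b) := by
    have h2 : σ b * σ c = σ (b * c * b⁻¹ * c⁻¹) * (σ c * σ b) := by
      rw [← map_mul, ← map_mul, ← map_mul]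
      congr 1
      group
    rw [h2, hz, smul_mul_assoc, one_mul]
  have hz1 : z ^ Module.finrank F U = 1 := by
    have h2 := congrArg LinearMap.det h1
    rw [LinearMap.det_smul, map_mul, map_mul, mul_comm (LinearMap.det (σ c))] at h2
    have h3 := mul_ne_zero (det_ne σ b) (det_ne σ c)
    have h4 : (z ^ Module.finrank F U - 1) * (LinearMap.det (σ b) * LinearMap.det (σ c)) = 0 := by
      rw [sub_mul, one_mul, ← h2, sub_self]
    rcases mul_eq_zero.1 h4 with h5 | h5
    · exact sub_eq_zero.1 h5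
    · exact absurd h5 h3
  obtain ⟨y, hy⟩ := Module.End.exists_eigenvalue (σ c)
  obtain ⟨v, hv⟩ := hy.exists_hasEigenvector
  have hv1 : σ c v = y • v := hv.apply_eq_smul
  have hz0 : z ≠ 0 := by
    rintro rfl
    rw [zero_pow Module.finrank_pos.ne'] at hz1
    exact zero_ne_one hz1
  have h2 : σ c (σ b v) = (z⁻¹ * y) • σ b v := by
    have h3 := LinearMap.congr_fun h1 v
    rw [Module.End.mul_apply, hv1, map_smul, LinearMap.smul_apply, Module.End.mul_apply] at h3
    rw [mul_smul, h3, smul_smul, inv_mul_cancel₀ hz0, one_smul]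
  have h3 : z⁻¹ = 1 := neat_root hσ (fun h => hv.2 (rep_inj σ b h)) hv.2 h2 hv1 rfl
    Module.finrank_pos (by rw [inv_pow, hz1, inv_one])
  rw [inv_eq_one] at h3
  rw [h1, h3, one_smul]

/-- In a neat irreducible representation a normal subgroup whose commutators are scalars acts by
scalars. -/
lemma neat_scal [Nontrivial U] {σ : B →* Module.End F U} (hσ : Neat σ)
    (hirr : ∀ W : Submodule F U, (∀ b, ∀ w ∈ W, σ b w ∈ W) → W = ⊥ ∨ W = ⊤) (D : Subgroup B)
    [hD : D.Normal] (hs : ∀ x ∈ ⁅D, D⁆, ∃ z : F, σ x = z • 1) (d : B) (hd : d ∈ D) :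
    ∃ z : F, σ d = z • 1 := by
  have hcomm : ∀ b c : D, σ b * σ c = σ c * σ b := by
    intro b c
    obtain ⟨z, hz⟩ := hs _ (Subgroup.commutator_mem_commutator b.2 c.2)
    rw [commutatorElement_def] at hz
    exact neat_comm hσ b c z hz
  obtain ⟨χ, v, hv, hχ⟩ := common_eig (fun d : D => σ d) hcomm
  let E : Submodule F U :=
    { carrier := {w | ∀ d : D, σ d w = χ d • w}
      zero_mem' := fun d => by rw [map_zero, smul_zero]
      add_mem' := fun {a b} ha hb d => by rw [map_add, ha d, hb d, smul_add]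
      smul_mem' := fun r w hw d => by rw [map_smul, hw d, smul_comm] }
  have hE : E = ⊤ := by
    rcases hirr E (fun g w hw d => by
      have h1 := weight_fixed hσ D hcomm χ v hv hχ g
        (fun d => ⟨g⁻¹ * d * g, by
          have := hD.conj_mem _ d.2 g⁻¹
          rwa [inv_inv] at this⟩) (fun d => rfl) d
      have h2 := hw ⟨g⁻¹ * d * g, by
          have := hD.conj_mem _ d.2 g⁻¹
          rwa [inv_inv] at this⟩
      rw [h1] at h2
      rw [← map_smul, ← h2, ← Module.End.mul_apply, ← Module.End.mul_apply, ← map_mul, ← map_mul]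
      congr 2
      group) with h | h
    · exfalso
      have h1 : v ∈ E := hχ
      rw [h] at h1
      exact hv h1
    · exact h
  refine ⟨χ ⟨d, hd⟩, ?_⟩
  ext w
  have h1 : w ∈ E := by rw [hE]; trivial
  exact h1 ⟨d, hd⟩

/-- In a neat representation an element with a scalar power is a scalar. -/
lemma neat_pow [Nontrivial U] {σ : B →* Module.End F U} (hσ : Neat σ) (b : B) {k : ℕ}
    (hk : 0 < k) {m : F} (hm : σ (b ^ k) = m • 1) : ∃ z : F, σ b = z • 1 := by
  obtain ⟨y, hy⟩ := Module.End.exists_eigenvalue (σ b)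
  obtain ⟨v, hv⟩ := hy.exists_hasEigenvector
  have hv1 : σ b v = y • v := hv.apply_eq_smul
  have hy0 := eig_ne σ hv.2 hv1
  have hpw : ∀ (y : F) (w : U), σ b w = y • w → ∀ i : ℕ, (σ b ^ i) w = y ^ i • w := by
    intro y w hw i
    induction i with
    | zero => simp
    | succ i ih =>
      rw [pow_succ, Module.End.mul_apply, hw, map_smul, ih, smul_smul, pow_succ']
  have hroot : ∀ (y' : F) (w : U), w ≠ 0 → σ b w = y' • w → y' = y := by
    intro y' w hw h1
    have h2 := hpw y' w h1 k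
    have h3 := hpw y v hv1 k
    rw [← map_pow, hm] at h2 h3
    simp only [LinearMap.smul_apply, Module.End.one_apply] at h2 h3
    have h4 : m = y' ^ k := by
      have : (m - y' ^ k) • w = 0 := by rw [sub_smul, h2, sub_self]
      rcases smul_eq_zero.1 this with h5 | h5
      · exact sub_eq_zero.1 h5
      · exact absurd h5 hw
    have h5 : m = y ^ k := by
      have : (m - y ^ k) • v = 0 := by rw [sub_smul, h3, sub_self]
      rcases smul_eq_zero.1 this with h5 | h5
      · exact sub_eq_zero.1 h5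
      · exact absurd h5 hv.2
    have h6 : y' = (y' / y) * y := by field_simp
    have h7 : y' / y = 1 := neat_root hσ hw hv.2 h1 hv1 h6 hk (by
      rw [div_pow, ← h4, ← h5, div_self]
      rw [h5]
      exact pow_ne_zero _ hy0)
    rw [h6, h7, one_mul]
  have hmy : m = y ^ k := by
    have h3 := hpw y v hv1 k
    rw [← map_pow, hm] at h3
    simp only [LinearMap.smul_apply, Module.End.one_apply] at h3
    have : (m - y ^ k) • v = 0 := by rw [sub_smul, h3, sub_self]
    rcases smul_eq_zero.1 this with h5 | h5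
    · exact sub_eq_zero.1 h5
    · exact absurd h5 hv.2
  set x : Module.End F U := σ b with hx
  have hcy : Commute x (y • (1 : Module.End F U)) := by
    show x * (y • 1) = (y • 1) * x
    rw [mul_smul_comm, mul_one, smul_mul_assoc, one_mul]
  set q : Module.End F U := ∑ i ∈ Finset.range k, x ^ i * (y • 1) ^ (k - 1 - i) with hq
  have h1 : (x - y • 1) * q = 0 := by
    rw [hq, hcy.mul_geom_sum₂, hx, ← map_pow, hm, hmy]
    rw [smul_pow, one_pow, sub_self]
  have hqx : ∀ w, q (x w) = x (q w) := by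
    intro w
    have h2 : q * x = x * q := by
      rw [hq, Finset.sum_mul, Finset.mul_sum]
      refine Finset.sum_congr rfl fun i _ => ?_
      have h3 : x * x ^ i = x ^ i * x := (Commute.refl x).pow_right i |>.eq
      have h4 : x * (y • (1 : Module.End F U)) ^ (k - 1 - i) = (y • 1) ^ (k - 1 - i) * x :=
        (hcy.pow_right _).eq
      rw [← mul_assoc, h3, mul_assoc, mul_assoc, h4]
    exact LinearMap.congr_fun h2 w
  have hqinj : LinearMap.ker q = ⊥ := by
    by_contra hne
    have hnt : Nontrivial (LinearMap.ker q) := Submodule.nontrivial_iff_ne_bot.2 hne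
    have hst : ∀ w ∈ LinearMap.ker q, x w ∈ LinearMap.ker q := by
      intro w hw
      rw [LinearMap.mem_ker] at hw ⊢
      rw [hqx, hw, map_zero]
    obtain ⟨y', hy'⟩ := Module.End.exists_eigenvalue (x.restrict hst)
    obtain ⟨w, hw⟩ := hy'.exists_hasEigenvector
    have hw1 : x (w : U) = y' • (w : U) := congrArg Subtype.val hw.apply_eq_smul
    have hw0 : (w : U) ≠ 0 := fun h => hw.2 (Subtype.ext h)
    have h2 := hroot y' w hw0 hw1
    rw [h2] at hw1
    have h3 : q (w : U) = 0 := w.2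
    have h4 : q (w : U) = ((k : F) * y ^ (k - 1)) • (w : U) := by
      show (∑ i ∈ Finset.range k, x ^ i * (y • (1 : Module.End F U)) ^ (k - 1 - i)) (w : U) = _
      rw [LinearMap.sum_apply]
      have h5 : ∀ i ∈ Finset.range k, (x ^ i * (y • 1) ^ (k - 1 - i)) (w : U) =
          y ^ (k - 1) • (w : U) := by
        intro i hi
        have h6 : i + (k - 1 - i) = k - 1 := by
          have := Finset.mem_range.1 hi
          omega
        rw [Module.End.mul_apply, smul_pow, one_pow, LinearMap.smul_apply, Module.End.one_apply,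
          map_smul, hpw y w hw1 i, smul_smul, ← pow_add, add_comm, h6]
      rw [Finset.sum_congr rfl h5, Finset.sum_const, Finset.card_range, mul_smul,
        Nat.cast_smul_eq_nsmul]
    rw [h4] at h3
    rcases smul_eq_zero.1 h3 with h5 | h5
    · exact mul_ne_zero (by exact_mod_cast hk.ne') (pow_ne_zero _ hy0) h5
    · exact hw0 h5
  refine ⟨y, ?_⟩
  have hsurj : Function.Surjective q :=
    LinearMap.injective_iff_surjective.1 (LinearMap.ker_eq_bot.1 hqinj)
  ext w
  obtain ⟨u, rfl⟩ := hsurj w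
  have h2 := LinearMap.congr_fun h1 u
  rw [Module.End.mul_apply, LinearMap.sub_apply, LinearMap.zero_apply, sub_eq_zero] at h2
  exact h2

/-- In a neat irreducible representation of a virtually solvable group the group acts by scalars. -/
lemma neat_irr [Nontrivial U] {σ : B →* Module.End F U} (hσ : Neat σ)
    (hirr : ∀ W : Submodule F U, (∀ b, ∀ w ∈ W, σ b w ∈ W) → W = ⊥ ∨ W = ⊤) (D : ℕ → Subgroup B)
    (hDn : ∀ i, (D i).Normal) (hD0 : (D 0).FiniteIndex) (hDc : ∀ i, ⁅D i, D i⁆ ≤ D (i + 1)) (n : ℕ)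
    (hDk : ∀ d ∈ D n, σ d = 1) (b : B) : ∃ z : F, σ b = z • 1 := by
  have h0 : ∀ n, (∀ d ∈ D n, ∃ z : F, σ d = z • 1) → ∀ d ∈ D 0, ∃ z : F, σ d = z • 1 := by
    intro n
    induction n with
    | zero => exact id
    | succ n ih =>
      intro h
      apply ih
      intro d hd
      have := hDn n
      exact neat_scal hσ hirr (D n) (fun x hx => h x (hDc n hx)) d hd
  have h1 := h0 n (fun d hd => ⟨1, by rw [hDk d hd, one_smul]⟩)
  have := hDn 0
  obtain ⟨m, hm⟩ := h1 _ (Subgroup.pow_index_mem (D 0) b)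
  exact neat_pow hσ b (Nat.pos_of_ne_zero hD0.index_ne_zero) hm

lemma neat_res {σ : B →* Module.End F U} (hσ : Neat σ) (W : Submodule F U)
    (hW : ∀ b, ∀ w ∈ W, σ b w ∈ W) : Neat (resRep σ W hW) := by
  rintro b y ⟨v, hv, h⟩
  exact hσ b y ⟨v, fun h1 => hv (Subtype.ext h1), congrArg Subtype.val h⟩

lemma neat_quo {σ : B →* Module.End F U} (hσ : Neat σ) (W : Submodule F U)
    (hW : ∀ b, ∀ w ∈ W, σ b w ∈ W) : Neat (quoRep σ W hW) := by
  rintro b y ⟨v', hv, h⟩
  obtain ⟨v, rfl⟩ := W.mkQ_surjective v'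
  apply hσ b y
  by_contra hno
  have hinj : ∀ u, σ b u = y • u → u = 0 := by
    intro u hu
    by_contra h0
    exact hno ⟨u, h0, hu⟩
  let f : Module.End F U := σ b - y • 1
  have hf : ∀ w ∈ W, f w ∈ W := fun w hw => W.sub_mem (hW b w hw) (W.smul_mem y hw)
  have hfi : Function.Injective (f.restrict hf) := by
    rw [injective_iff_map_eq_zero]
    intro w hw
    apply Subtype.ext
    apply hinj
    have h1 : f (w : U) = 0 := congrArg Subtype.val hw
    exact sub_eq_zero.1 h1
  have h1 : f v ∈ W := by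
    rw [quoRep_apply, ← map_smul, ← sub_eq_zero, ← map_sub] at h
    exact (Submodule.Quotient.mk_eq_zero W).1 h
  obtain ⟨w, hw⟩ := (LinearMap.injective_iff_surjective.1 hfi) ⟨f v, h1⟩
  have h2 : f (w : U) = f v := congrArg Subtype.val hw
  have h3 : v - w = 0 := by
    apply hinj
    have h4 : f (v - w) = 0 := by rw [map_sub, h2, sub_self]
    exact sub_eq_zero.1 h4
  rw [sub_eq_zero] at h3
  apply hv
  rw [h3]
  exact (Submodule.Quotient.mk_eq_zero W).2 w.2

end three

/-- Neat representations of virtually solvable groups have unipotent commutators. -/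
theorem neat_unip (F : Type) [Field F] [IsAlgClosed F] [CharZero F] {B : Type} [Group B]
    (D : ℕ → Subgroup B)
    (hDn : ∀ i, (D i).Normal) (hD0 : (D 0).FiniteIndex) (hDc : ∀ i, ⁅D i, D i⁆ ≤ D (i + 1)) (n : ℕ)
    (e : ℕ) : ∀ (U : Type) [AddCommGroup U] [Module F U] [FiniteDimensional F U]
    (σ : B →* Module.End F U), Neat σ → (∀ d ∈ D n, σ d = 1) → Module.finrank F U ≤ e →
      ∀ x ∈ commutator B, IsNilpotent (σ x - 1) := by
  have triv : ∀ (U : Type) [AddCommGroup U] [Module F U] (f : Module.End F U), Subsingleton U →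
      IsNilpotent f := fun U _ _ f hs => ⟨1, by ext u; exact Subsingleton.elim _ _⟩
  induction e with
  | zero =>
    intro U _ _ _ σ _ _ hd x _
    exact triv U _ (Module.finrank_zero_iff.1 (Nat.le_zero.1 hd))
  | succ e ih =>
    intro U _ _ _ σ hσ hDk hd x hx
    rcases subsingleton_or_nontrivial U with hs | hs
    · exact triv U _ hs
    obtain ⟨W, hW, hWt, hirr⟩ := exists_max σ
    have hnt : Nontrivial (U ⧸ W) := Submodule.Quotient.nontrivial_iff.2 hWt
    have hsc := neat_irr (neat_quo hσ W hW) hirr D hDn hD0 hDc n (fun d hd => by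
      apply LinearMap.ext
      intro u
      obtain ⟨v, rfl⟩ := W.mkQ_surjective u
      rw [quoRep_apply, hDk d hd]
      rfl)
    have hker : commutator B ≤ (quoRep σ W hW).ker := by
      rw [commutator_def, Subgroup.commutator_le]
      intro a _ b _
      rw [MonoidHom.mem_ker, commutatorElement_def]
      obtain ⟨za, hza⟩ := hsc a
      obtain ⟨zb, hzb⟩ := hsc b
      have h1 : quoRep σ W hW a * quoRep σ W hW b = quoRep σ W hW b * quoRep σ W hW a := by
        rw [hza, hzb, smul_mul_smul_comm, smul_mul_smul_comm, mul_comm]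
      have h2 : a * b * a⁻¹ * b⁻¹ * (b * a) = a * b := by group
      have h3 := congrArg (quoRep σ W hW) h2
      rw [map_mul, map_mul _ b a, map_mul _ a b, ← h1, ← map_mul _ a b] at h3
      have h5 : quoRep σ W hW (a * b) * quoRep σ W hW (a * b)⁻¹ = 1 := by
        rw [← map_mul, mul_inv_cancel, map_one]
      calc quoRep σ W hW (a * b * a⁻¹ * b⁻¹)
          = quoRep σ W hW (a * b * a⁻¹ * b⁻¹) *
            (quoRep σ W hW (a * b) * quoRep σ W hW (a * b)⁻¹) := by rw [h5, mul_one]
        _ = 1 := by rw [← mul_assoc, h3, h5]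
    have hfr : Module.finrank F W ≤ e := by
      have := Submodule.finrank_lt hWt
      omega
    obtain ⟨N, hN⟩ := ih W (resRep σ W hW) (neat_res hσ W hW) (fun d hd => by
      ext u
      rw [resRep_apply, hDk d hd]
      rfl) hfr x hx
    refine ⟨N + 1, ?_⟩
    have h1 : ∀ (i : ℕ) (w : W), (((resRep σ W hW x - 1) ^ i) w : U) = ((σ x - 1) ^ i) (w : U) := by
      intro i
      induction i with
      | zero => intro w; rfl
      | succ i ih =>
        intro w
        rw [pow_succ, Module.End.mul_apply, ih, pow_succ, Module.End.mul_apply]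
        rfl
    ext u
    have h2 : (σ x - 1) u ∈ W := by
      have h3 : quoRep σ W hW x = 1 := hker hx
      have h4 := LinearMap.congr_fun h3 (W.mkQ u)
      rw [quoRep_apply, Module.End.one_apply, ← sub_eq_zero, ← map_sub] at h4
      exact (Submodule.Quotient.mk_eq_zero W).1 h4
    have h3 := h1 N ⟨_, h2⟩
    rw [hN] at h3
    rw [pow_succ, Module.End.mul_apply, ← h3]
    rfl

end Pool.Agent.V8H98.CHV
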