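import Pool.Agent.V8H98.CHV.Asm

/-!
# Groups of mapping classes which are virtually solvable modulo Torelli groups of finite covers

Let `π` be the fundamental group of the closed orientable surface `S` of genus `g ≥ 2`, and let
`Γ_1, ..., Γ_r` be arbitrary normal subgroups of finite index of `π` (finite regular covers of `S`),
with the lower central series `Γ = γ_1 Γ ≥ γ_2 Γ = [Γ, Γ] ≥ ...` (in Mathlib
`Γ.lowerCentralSeries c = γ_{c+1} Γ`). Let `T ≤ Mod_S = Out (π)` be the image of the group of the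
automorphisms of `π` acting trivially on `π / Γ_i` and on `Γ_i / [Γ_i, Γ_i]` for all `i` (up to
finite index the mapping classes which lift to the covers and act trivially on their homology; for
`r = 1` and `Γ_1 = π` the Torelli group of `S`).

The theorem: let `A ≤ Mod_S` be any subgroup which is virtually solvable on each
`Γ_i / [Γ_i, Γ_i]`: some derived subgroup of a subgroup of finite index of (the preimage in
`Aut (π)` of) `A` acts on it by conjugations by elements of `π`. Then every subgroup of finite index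
of `A` which contains the elements of `A` acting as inner automorphisms on the virtually nilpotent
group `π / (γ_{c_1+1} Γ_1 ∩ ... ∩ γ_{c_r+1} Γ_r)`, for some `c_i`, contains the intersection of `A`
with a congruence subgroup of `Mod_S`. This applies to `T` and to the group generated by `T` and one
mapping class preserving all `Γ_i` (every mapping class, if the `Γ_i` are characteristic).

The proof. The passage from `γ_{c+1} Γ` to `[Γ, Γ]` is `Pool.Agent.V8H98.CHV.inv_all`, a version of
`Pool.Agent.R569.CS.csp_all` for invariant subgroups, the passage to several and to not invariant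
subgroups is in `csp_family` and `csp_main`. It remains to prove the congruence property for the
action on `Γ / [Γ, Γ]` and `π / Γ`. The ingredients are
* Chevalley's theorem: subgroups of finite index of the group of units of a number field are
  congruence subgroups (`Pool.Agent.V8H98.CHV.chevalley`; from the existence of primes with
  prescribed splitting, the unit theorem and the fact that local `k`-th powers are almost `k`-th
  powers);
* a virtually solvable group of integral matrices which are congruent to `1` modulo `3` has unipotent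
  commutators (`Pool.Agent.V8H98.CHV.unip_of_vsolv`, a sharpened form of a theorem of Mal'cev);
* an induction along a composition series (`Pool.Agent.V8H98.CHV.lin`).
-/

set_option autoImplicit false

namespace Pool.Agent.V8H98.CHV.OldTorelliBySolvable

open scoped commutatorElement

/-- The relator `[a_1, b_1] ⋯ [a_g, b_g]` of the surface group. -/
def rel (g : ℕ) : FreeGroup (Fin g ⊕ Fin g) :=
  (List.ofFn (fun i : Fin g =>
    FreeGroup.of (Sum.inl i : Fin g ⊕ Fin g) * FreeGroup.of (Sum.inr i : Fin g ⊕ Fin g) *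
    (FreeGroup.of (Sum.inl i : Fin g ⊕ Fin g))⁻¹ *
    (FreeGroup.of (Sum.inr i : Fin g ⊕ Fin g))⁻¹)).prod

/-- The fundamental group of the closed orientable surface of genus `g`. -/
abbrev SurfaceGroup (g : ℕ) : Type := PresentedGroup ({rel g} : Set (FreeGroup (Fin g ⊕ Fin g)))

section

variable {G : Type} [Group G]

/-- `φ` acts on `Γ / [Γ, Γ]` as the conjugation by an element of `G`. -/
def InnerOnAb (Γ : Subgroup G) (φ : MulAut G) : Prop :=
  ∃ g : G, ∀ x ∈ Γ, φ x * (g * x * g⁻¹)⁻¹ ∈ (⁅Γ, Γ⁆ : Subgroup G)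

/-- `A` has a subgroup `E` of finite index, and a number `n`, such that the `n`-th derived subgroup
of `E` acts on `Γ / [Γ, Γ]` by conjugations by elements of `G`. -/
def VirtuallySolvableOn (A : Subgroup (MulAut G)) (Γ : Subgroup G) : Prop :=
  ∃ E : Subgroup A, E.FiniteIndex ∧ ∃ n : ℕ, ∀ d ∈ derivedSeries E n, InnerOnAb Γ (d : A).1

/-- `φ` acts trivially modulo `K`. -/
def TrivialMod (K : Subgroup G) (φ : MulAut G) : Prop :=
  ∀ x : G, φ x * x⁻¹ ∈ K

/-- `φ` acts as an inner automorphism modulo `K`. -/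
def InnerMod (K : Subgroup G) (φ : MulAut G) : Prop :=
  ∃ g : G, ∀ x : G, φ x * (g * x * g⁻¹)⁻¹ ∈ K

/-- Every subgroup `V` of finite index of `A` which contains all elements `a` of `A` with `P a`
contains, for some characteristic subgroup `K` of finite index of `G`, all elements of `A` which act
trivially modulo `K`. -/
def PropertyAut (A : Subgroup (MulAut G)) (P : MulAut G → Prop) : Prop :=
  ∀ V : Subgroup A, V.FiniteIndex → (∀ a : A, P a.1 → a ∈ V) →
    ∃ K : Subgroup G, K.Characteristic ∧ K.FiniteIndex ∧ ∀ a : A, TrivialMod K a.1 → a ∈ V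

/-- Every subgroup `V` of finite index of `A` which contains all elements `a` of `A` with `P a`
contains, for some characteristic subgroup `K` of finite index of `G`, all elements of `A` which act
as an inner automorphism modulo `K`. -/
def PropertyOut (A : Subgroup (MulAut G)) (P : MulAut G → Prop) : Prop :=
  ∀ V : Subgroup A, V.FiniteIndex → (∀ a : A, P a.1 → a ∈ V) →
    ∃ K : Subgroup G, K.Characteristic ∧ K.FiniteIndex ∧ ∀ a : A, InnerMod K a.1 → a ∈ V

/-- `φ` acts trivially on `G / Γ` and on `Γ / [Γ, Γ]`. -/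
def TorelliLike (Γ : Subgroup G) (φ : MulAut G) : Prop :=
  (∀ x, φ x * x⁻¹ ∈ Γ) ∧ ∀ x ∈ Γ, φ x * x⁻¹ ∈ (⁅Γ, Γ⁆ : Subgroup G)

/-- The group generated by the automorphisms acting trivially on `G / Γ_i` and on
`Γ_i / [Γ_i, Γ_i]` for all `i`, the inner automorphisms and `φ`. -/
def TorelliAnd {I : Type} (Γ : I → Subgroup G) (φ : MulAut G) : Subgroup (MulAut G) :=
  Subgroup.closure ({a | ∀ i, TorelliLike (Γ i) a} ∪ {a | ∃ x, a = MulAut.conj x} ∪ {φ})

theorem toVS {A : Subgroup (MulAut G)} {Γ : Subgroup G} (h : VirtuallySolvableOn A Γ) :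
    V8H98.CHV.VS A.subtype Γ := by
  obtain ⟨E, hE, n, hn⟩ := h
  refine ⟨E, hE, n, fun d hd => ?_⟩
  rw [V8H98.CHV.dser_eq] at hd
  obtain ⟨d, hd, rfl⟩ := hd
  exact hn d hd

theorem propertyAut [Group.FG G] {I : Type} [Finite I] (Γ : I → Subgroup G)
    (hn : ∀ i, (Γ i).Normal) (hf : ∀ i, (Γ i).FiniteIndex) (A : Subgroup (MulAut G))
    (hA : ∀ i, VirtuallySolvableOn A (Γ i)) (c : I → ℕ) :
    PropertyAut A (TrivialMod (⨅ i, (Γ i).lowerCentralSeries (c i))) := by
  intro V hV hP
  obtain ⟨K, h1, h2, h3⟩ := V8H98.CHV.csp_main Γ hn hf c A.subtype (fun i => toVS (hA i)) V hV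
    (fun a ha => hP a ha)
  exact ⟨K, h1, h2, fun a ha => h3 ha⟩

theorem propertyOut [Group.FG G] {I : Type} [Finite I] (Γ : I → Subgroup G)
    (hn : ∀ i, (Γ i).Normal) (hf : ∀ i, (Γ i).FiniteIndex) (A : Subgroup (MulAut G))
    (hI : ∀ x, MulAut.conj x ∈ A) (hA : ∀ i, VirtuallySolvableOn A (Γ i)) (c : I → ℕ) :
    PropertyOut A (InnerMod (⨅ i, (Γ i).lowerCentralSeries (c i))) := by
  intro V hV hP
  obtain ⟨K, hK1, hK2, hK3⟩ := propertyAut Γ hn hf A hA c V hV
    (fun a ha => hP a ⟨1, fun x => by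
      have := ha x
      simpa using this⟩)
  refine ⟨K, hK1, hK2, ?_⟩
  rintro a ⟨g, hg⟩
  have h2 : TrivialMod K ((⟨MulAut.conj g, hI g⟩ : A)⁻¹ * a).1 := by
    intro x
    have h3 : ((MulAut.conj g)⁻¹ * a.1 : MulAut G) x * x⁻¹ =
        (MulAut.conj g)⁻¹ (a.1 x * (g * x * g⁻¹)⁻¹) := by
      rw [MulAut.mul_apply, map_mul, map_inv, MulAut.conj_inv_apply, MulAut.conj_inv_apply]
      group
    show ((MulAut.conj g)⁻¹ * a.1 : MulAut G) x * x⁻¹ ∈ K
    rw [h3]
    exact Subgroup.characteristic_iff_le_comap.1 hK1 ((MulAut.conj g)⁻¹) (hg x)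
  have hcg : (⟨MulAut.conj g, hI g⟩ : A) ∈ V := by
    refine hP _ ⟨g, fun x => ?_⟩
    show MulAut.conj g x * (g * x * g⁻¹)⁻¹ ∈ ⨅ i, (Γ i).lowerCentralSeries (c i)
    rw [MulAut.conj_apply, mul_inv_cancel]
    exact Subgroup.one_mem _
  have h4 := V.mul_mem hcg (hK3 _ h2)
  rwa [mul_inv_cancel_left] at h4

/-- The stabilizer of `Γ`. -/
def stab (Γ : Subgroup G) : Subgroup (MulAut G) where
  carrier := {φ | (∀ x ∈ Γ, φ x ∈ Γ) ∧ ∀ x ∈ Γ, φ⁻¹ x ∈ Γ}
  one_mem' := ⟨fun x hx => hx, fun x hx => by rw [inv_one]; exact hx⟩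
  mul_mem' := fun {a b} ha hb => ⟨fun x hx => ha.1 _ (hb.1 _ hx), fun x hx => by
    rw [mul_inv_rev]
    exact hb.2 _ (ha.2 _ hx)⟩
  inv_mem' := fun {a} ha => ⟨ha.2, by rw [inv_inv]; exact ha.1⟩

theorem virtuallySolvable_torelliAnd {I : Type} (Γ : I → Subgroup G)
    (hn : ∀ i, (Γ i).Normal) (φ : MulAut G) (hφ : ∀ i, (Γ i).map φ.toMonoidHom = Γ i) (i : I) :
    VirtuallySolvableOn (TorelliAnd Γ φ) (Γ i) := by
  refine ⟨⊤, inferInstance, 1, ?_⟩
  set S := stab (Γ i) with hS
  have hinv : V8H98.CHV.Inv S.subtype (Γ i) := fun a x hx => a.2.1 x hx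
  set τ := V8H98.CHV.linRep S.subtype (Γ i) hinv with hτ
  -- the inner automorphisms
  have hconj : ∀ x, MulAut.conj x ∈ S := fun x =>
    ⟨fun y hy => (hn i).conj_mem y hy x, fun y hy => by
      rw [← map_inv]
      exact (hn i).conj_mem y hy x⁻¹⟩
  let J : Subgroup S := ((MulAut.conj : G →* MulAut G).range).comap S.subtype
  have hJ : J.Normal := by
    constructor
    rintro a ⟨x, hx⟩ b
    refine ⟨b.1 x, ?_⟩
    have hx' : MulAut.conj x = a.1 := hx
    show MulAut.conj (b.1 x) = b.1 * a.1 * b.1⁻¹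
    rw [← hx']
    ext y
    simp [MulAut.conj_apply, MulAut.mul_apply]
  have hN : (τ.ker ⊔ J).Normal := inferInstance
  have hin : ∀ a ∈ τ.ker ⊔ J, InnerOnAb (Γ i) a.1 := by
    intro a ha
    rw [← SetLike.mem_coe, Subgroup.normal_mul] at ha
    obtain ⟨ψ, hψ, ι, ⟨g, hg⟩, rfl⟩ := ha
    refine ⟨g, fun x hx => ?_⟩
    have hg' : MulAut.conj g = ι.1 := hg
    have hy : g * x * g⁻¹ ∈ Γ i := (hn i).conj_mem x hx g
    have h1 : τ ψ (V8H98.CHV.mkA (Γ i) ⟨g * x * g⁻¹, hy⟩) =
        V8H98.CHV.mkA (Γ i) ⟨g * x * g⁻¹, hy⟩ := by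
      have h2 : τ ψ = 1 := hψ
      rw [h2]
      rfl
    have h2 := V8H98.CHV.mkA_eq (Γ i) h1
    show ψ.1 (ι.1 x) * (g * x * g⁻¹)⁻¹ ∈ _
    rw [← hg']
    exact h2
  have hφS : φ ∈ S := by
    constructor
    · intro x hx
      have h1 : φ x ∈ (Γ i).map φ.toMonoidHom := ⟨x, hx, rfl⟩
      rwa [hφ i] at h1
    · intro x hx
      have h1 : x ∈ (Γ i).map φ.toMonoidHom := by rw [hφ i]; exact hx
      obtain ⟨y, hy, hyx⟩ := h1
      have h2 : φ y = x := hyx
      have h3 : φ⁻¹ x = y := by
        rw [← h2, ← MulAut.mul_apply, inv_mul_cancel, MulAut.one_apply]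
      rw [h3]
      exact hy
  set q := QuotientGroup.mk' (τ.ker ⊔ J) with hq
  have hle : TorelliAnd Γ φ ≤ ((Subgroup.zpowers (q ⟨φ, hφS⟩)).comap q).map S.subtype := by
    unfold TorelliAnd
    rw [Subgroup.closure_le]
    rintro a ((ha | ⟨x, rfl⟩) | ha)
    · have haS : a ∈ S := by
        have ha1 : ∀ x ∈ Γ i, a x ∈ Γ i := by
          intro x hx
          have h1 := (Γ i).mul_mem ((ha i).1 x) hx
          rwa [inv_mul_cancel_right] at h1
        refine ⟨ha1, fun x hx => ?_⟩
        have h1 := (ha i).1 (a⁻¹ x)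
        have h2 : a (a⁻¹ x) = x := by rw [← MulAut.mul_apply, mul_inv_cancel, MulAut.one_apply]
        rw [h2] at h1
        have h3 := (Γ i).mul_mem ((Γ i).inv_mem h1) hx
        rwa [mul_inv_rev, inv_inv, inv_mul_cancel_right] at h3
      refine ⟨⟨a, haS⟩, ?_, rfl⟩
      have h1 : (⟨a, haS⟩ : S) ∈ τ.ker := by
        rw [MonoidHom.mem_ker]
        apply LinearMap.ext
        intro y
        obtain ⟨x, rfl⟩ := V8H98.CHV.mkA_surj (Γ i) y
        exact V8H98.CHV.mkA_of_mem (Γ i) ((ha i).2 x x.2)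
      have h2 : q ⟨a, haS⟩ = 1 := (QuotientGroup.eq_one_iff _).2 (Subgroup.mem_sup_left h1)
      show q ⟨a, haS⟩ ∈ Subgroup.zpowers (q ⟨φ, hφS⟩)
      rw [h2]
      exact Subgroup.one_mem _
    · refine ⟨⟨MulAut.conj x, hconj x⟩, ?_, rfl⟩
      have h1 : (⟨MulAut.conj x, hconj x⟩ : S) ∈ J := ⟨x, rfl⟩
      have h2 : q ⟨MulAut.conj x, hconj x⟩ = 1 :=
        (QuotientGroup.eq_one_iff _).2 (Subgroup.mem_sup_right h1)
      show q ⟨MulAut.conj x, hconj x⟩ ∈ Subgroup.zpowers (q ⟨φ, hφS⟩)
      rw [h2]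
      exact Subgroup.one_mem _
    · rw [Set.mem_singleton_iff] at ha
      subst ha
      exact ⟨⟨a, hφS⟩, Subgroup.mem_zpowers _, rfl⟩
  have hsub : ∀ a ∈ TorelliAnd Γ φ, a ∈ S := fun a ha => by
    obtain ⟨a', _, rfl⟩ := hle ha
    exact a'.2
  intro d hd
  have h1 : derivedSeries (⊤ : Subgroup (TorelliAnd Γ φ)) 1 ≤
      (τ.ker ⊔ J).comap ((Subgroup.inclusion (show TorelliAnd Γ φ ≤ S from hsub)).comp
        (Subgroup.subtype ⊤)) := by
    rw [derivedSeries_succ, derivedSeries_zero, Subgroup.commutator_le]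
    intro a _ b _
    rw [Subgroup.mem_comap, map_commutatorElement]
    obtain ⟨a', ⟨k, hk⟩, ha'⟩ := hle a.1.2
    obtain ⟨b', ⟨l, hl⟩, hb'⟩ := hle b.1.2
    have ea : ((Subgroup.inclusion (show TorelliAnd Γ φ ≤ S from hsub)).comp
        (Subgroup.subtype ⊤)) a = a' := Subtype.ext ha'.symm
    have eb : ((Subgroup.inclusion (show TorelliAnd Γ φ ≤ S from hsub)).comp
        (Subgroup.subtype ⊤)) b = b' := Subtype.ext hb'.symm
    rw [ea, eb, ← QuotientGroup.eq_one_iff]
    show q ⁅a', b'⁆ = 1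
    rw [map_commutatorElement, commutatorElement_eq_one_iff_commute]
    have hk' : q a' = (q ⟨φ, hφS⟩) ^ k := hk.symm
    have hl' : q b' = (q ⟨φ, hφS⟩) ^ l := hl.symm
    rw [hk', hl']
    exact (Commute.refl _).zpow_zpow k l
  exact hin _ (h1 hd)

end

theorem surface_fg (g : ℕ) : Group.FG (SurfaceGroup g) :=
  QuotientGroup.fg _

/-- Let `(Γ_i)` be a finite family of normal subgroups of finite index of the fundamental group `π`
of the closed orientable surface of genus `g ≥ 2`.
(1) Let `A` be a subgroup of `Aut (π)` which is virtually solvable on `Γ_i / [Γ_i, Γ_i]` for all `i`.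
Then the subgroups of finite index of `A` containing the elements acting trivially on
`π / ⋂ γ_{c_i+1} Γ_i` contain the elements of `A` acting trivially on `π / K` for some characteristic
subgroup `K` of finite index.
(2) Let moreover `A` contain the inner automorphisms. Then the subgroups of finite index of `A`
containing the elements acting as inner automorphisms on `π / ⋂ γ_{c_i+1} Γ_i` contain the elements
of `A` acting as inner automorphisms on `π / K` for some characteristic subgroup `K` of finite index: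
the corresponding subgroups of finite index of `A / Inn (π) ≤ Mod_S` are congruence subgroups.
(3) This applies to the group generated by the automorphisms acting trivially on `π / Γ_i` and
`Γ_i / [Γ_i, Γ_i]` for all `i`, the inner automorphisms and an arbitrary automorphism `φ` of `π`
which preserves all `Γ_i`. -/
theorem result (g : ℕ) (_ : 2 ≤ g) (I : Type) [Finite I] (Γ : I → Subgroup (SurfaceGroup g))
    (hn : ∀ i, (Γ i).Normal) (hf : ∀ i, (Γ i).FiniteIndex) :
    (∀ A : Subgroup (MulAut (SurfaceGroup g)), (∀ i, VirtuallySolvableOn A (Γ i)) →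
      ∀ c : I → ℕ, PropertyAut A (TrivialMod (⨅ i, (Γ i).lowerCentralSeries (c i))) ∧
        ((∀ x, MulAut.conj x ∈ A) →
          PropertyOut A (InnerMod (⨅ i, (Γ i).lowerCentralSeries (c i))))) ∧
    ∀ φ : MulAut (SurfaceGroup g), (∀ i, (Γ i).map φ.toMonoidHom = Γ i) → ∀ c : I → ℕ,
      PropertyOut (TorelliAnd Γ φ) (InnerMod (⨅ i, (Γ i).lowerCentralSeries (c i))) := by
  have := surface_fg g
  refine ⟨fun A hA c => ⟨propertyAut Γ hn hf A hA c, fun hI =>
    propertyOut Γ hn hf A hI hA c⟩, fun φ hφ c => ?_⟩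
  exact propertyOut Γ hn hf _ (fun x => Subgroup.subset_closure (Or.inl (Or.inr ⟨x, rfl⟩)))
    (virtuallySolvable_torelliAnd Γ hn φ hφ) c

end Pool.Agent.V8H98.CHV.OldTorelliBySolvable
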